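import Mathlib

/-!
MP_1ad8b2_co: almost all posets are reconstructible. Counting, part 1: growth of the number of
labelled posets.
-/

set_option autoImplicit false

namespace Pool.Agent.Lib.MP_1ad8b2_co.H59

open Finset

/-- Partial orders on `α`, as relations. -/
def PO (α : Type) : Type :=
  {r : α → α → Prop // (∀ a, r a a) ∧ (∀ a b, r a b → r b a → a = b) ∧
    (∀ a b c, r a b → r b c → r a c)}

instance (α : Type) [Finite α] : Finite (PO α) := Subtype.finite

theorem PO.ext' {α : Type} {r s : PO α} (h : ∀ a b, r.1 a b ↔ s.1 a b) : r = s := by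
  apply Subtype.ext
  funext a b
  exact propext (h a b)

/-- transport -/
def PO.congr {α β : Type} (e : α ≃ β) : PO α ≃ PO β where
  toFun r := ⟨fun a b => r.1 (e.symm a) (e.symm b), fun a => r.2.1 _,
    fun a b h h' => e.symm.injective (r.2.2.1 _ _ h h'), fun a b c h h' => r.2.2.2 _ _ _ h h'⟩
  invFun r := ⟨fun a b => r.1 (e a) (e b), fun a => r.2.1 _,
    fun a b h h' => e.injective (r.2.2.1 _ _ h h'), fun a b c h h' => r.2.2.2 _ _ _ h h'⟩
  left_inv r := by
    apply PO.ext'
    intro a b
    simp
  right_inv r := by
    apply PO.ext'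
    intro a b
    simp

/-- number of labelled posets -/
noncomputable def L (n : ℕ) : ℕ := Nat.card (PO (Fin n))

theorem card_PO (α : Type) [Fintype α] : Nat.card (PO α) = L (Fintype.card α) :=
  Nat.card_congr (PO.congr (Fintype.equivFin α))

theorem L_pos (n : ℕ) : 0 < L n := by
  have : Nonempty (PO (Fin n)) := ⟨⟨fun a b => a = b, fun _ => rfl, fun _ _ h _ => h,
    fun _ _ _ h h' => h.trans h'⟩⟩
  exact Nat.card_pos

/-- down-sets -/
def Low {α : Type} (r : PO α) : Type := {I : Set α // ∀ a b, r.1 a b → b ∈ I → a ∈ I}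

instance {α : Type} [Finite α] (r : PO α) : Finite (Low r) := Subtype.finite

/-- number of down-sets -/
noncomputable def idc {α : Type} (r : PO α) : ℕ := Nat.card (Low r)

theorem idc_congr {α β : Type} (e : α ≃ β) (r : PO α) : idc (PO.congr e r) = idc r := by
  refine (Nat.card_congr ?_).symm
  refine
    { toFun := fun I => ⟨e.symm ⁻¹' I.1, fun a b h hb => I.2 _ _ h hb⟩
      invFun := fun I => ⟨e ⁻¹' I.1, fun a b h hb => I.2 _ _ (by simpa [PO.congr] using h) hb⟩
      left_inv := ?_
      right_inv := ?_ }
  · intro I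
    apply Subtype.ext
    ext a
    simp
  · intro I
    apply Subtype.ext
    ext a
    simp

/-- adding a maximal element -/
def extd {α : Type} (r : PO α) (I : Low r) : PO (Option α) :=
  ⟨fun a b => match a, b with
    | none, none => True
    | none, some _ => False
    | some a, none => a ∈ I.1
    | some a, some b => r.1 a b, by
      refine ⟨?_, ?_, ?_⟩
      · intro a
        cases a with
        | none => trivial
        | some a => exact r.2.1 a
      · intro a b h h'
        cases a with
        | none => cases b with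
          | none => rfl
          | some b => exact h.elim
        | some a => cases b with
          | none => exact h'.elim
          | some b => exact congrArg some (r.2.2.1 _ _ h h')
      · intro a b c h h'
        cases a with
        | none => cases b with
          | none => exact h'
          | some b => exact h.elim
        | some a => cases b with
          | none => cases c with
            | none => exact h
            | some c => exact h'.elim
          | some b => cases c with
            | none => exact I.2 _ _ h h'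
            | some c => exact r.2.2.2 _ _ _ h h'⟩

theorem extd_inj {α : Type} :
    Function.Injective (fun p : Σ r : PO α, Low r => extd p.1 p.2) := by
  rintro ⟨r, I⟩ ⟨s, J⟩ h
  have h' : ∀ a b, (extd r I).1 a b ↔ (extd s J).1 a b := by
    intro a b
    simp only at h
    rw [h]
  have hrs : r = s := PO.ext' fun a b => h' (some a) (some b)
  subst hrs
  have hIJ : I = J := by
    apply Subtype.ext
    ext a
    exact h' (some a) none
  subst hIJ
  rfl

/-- number of posets with fewer than `t` down-sets -/
noncomputable def B (n t : ℕ) : ℕ := Nat.card {r : PO (Fin n) // idc r < t}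

theorem card_poor (α : Type) [Fintype α] (t : ℕ) :
    Nat.card {r : PO α // idc r < t} = B (Fintype.card α) t := by
  refine Nat.card_congr ?_
  refine (PO.congr (Fintype.equivFin α)).subtypeEquiv ?_
  intro r
  rw [idc_congr]

theorem L_succ_ge (m t : ℕ) : (L m - B m t) * t ≤ L (m + 1) := by
  classical
  have h1 : L (m + 1) = Nat.card (PO (Option (Fin m))) := by
    rw [card_PO]; simp
  rw [h1]
  have h2 : Nat.card (Σ r : PO (Fin m), Low r) ≤ Nat.card (PO (Option (Fin m))) :=
    Nat.card_le_card_of_injective _ extd_inj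
  refine le_trans ?_ h2
  let : Fintype (PO (Fin m)) := Fintype.ofFinite _
  rw [Nat.card_sigma]
  have h3 : ((univ : Finset (PO (Fin m))).filter (fun r => t ≤ idc r)).card * t ≤
      ∑ r : PO (Fin m), Nat.card (Low r) := by
    rw [← smul_eq_mul, ← sum_const]
    refine le_trans (sum_le_sum (g := fun r => Nat.card (Low r)) fun r hr => ?_) ?_
    · exact (mem_filter.1 hr).2
    · exact sum_le_sum_of_subset (filter_subset _ _)
  refine le_trans (Nat.mul_le_mul_right t ?_) h3
  have h4 : B m t = ((univ : Finset (PO (Fin m))).filter (fun r => ¬ t ≤ idc r)).card := by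
    unfold B
    rw [Nat.card_eq_fintype_card, Fintype.card_subtype]
    congr 1
    ext r
    simp
  have h5 : L m = (univ : Finset (PO (Fin m))).card := by
    unfold L
    rw [Nat.card_eq_fintype_card, card_univ]
  rw [h4, h5, ← card_filter_add_card_filter_not (s := univ) (fun r => t ≤ idc r)]
  omega

/-- restriction -/
def PO.res {α : Type} (r : PO α) (p : α → Prop) : PO {a // p a} :=
  ⟨fun a b => r.1 a.1 b.1, fun a => r.2.1 _, fun a b h h' => Subtype.ext (r.2.2.1 _ _ h h'),
    fun a b c h h' => r.2.2.2 _ _ _ h h'⟩

/-- a maximal element -/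
theorem exists_max {α : Type} [Finite α] [Nonempty α] (r : PO α) :
    ∃ x, ∀ y, r.1 x y → y = x := by
  let P : PartialOrder α :=
    { le := r.1
      le_refl := r.2.1
      le_trans := fun a b c h h' => r.2.2.2 a b c h h'
      le_antisymm := fun a b h h' => r.2.2.1 a b h h' }
  obtain ⟨x, hx⟩ := (Set.toFinite (Set.univ : Set α)).exists_maximal Set.univ_nonempty
  refine ⟨x, fun y hy => ?_⟩
  have := hx.2 (y := y) trivial hy
  exact r.2.2.1 _ _ this hy

theorem idc_res_le {α : Type} [Finite α] (r : PO α) (x : α) (hx : ∀ y, r.1 x y → y = x) :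
    idc (r.res (fun y => y ≠ x)) ≤ idc r := by
  refine Nat.card_le_card_of_injective
    (fun I : Low (r.res (fun y => y ≠ x)) => (⟨{a | ∃ h : a ≠ x, (⟨a, h⟩ : {a // a ≠ x}) ∈ I.1}, ?_⟩ : Low r)) ?_
  · rintro a b hab ⟨hb, hbI⟩
    have ha : a ≠ x := by
      rintro rfl
      exact hb (hx b hab)
    exact ⟨ha, I.2 ⟨a, ha⟩ ⟨b, hb⟩ hab hbI⟩
  · intro I J h
    have h' := congrArg Subtype.val h
    simp only at h'
    apply Subtype.ext
    ext ⟨a, ha⟩
    have := Set.ext_iff.1 h' a
    simp only [Set.mem_setOf_eq] at this
    constructor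
    · intro hI
      obtain ⟨_, h2⟩ := this.1 ⟨ha, hI⟩
      exact h2
    · intro hI
      obtain ⟨_, h2⟩ := this.2 ⟨ha, hI⟩
      exact h2

theorem B_succ_le (m t : ℕ) : B (m + 1) t ≤ (m + 1) * (B m t * t) := by
  classical
  -- code of a poor poset
  let code : {r : PO (Fin (m + 1)) // idc r < t} →
      Σ x : Fin (m + 1), Σ q : {q : PO {y : Fin (m + 1) // y ≠ x} // idc q < t}, Low q.1 :=
    fun r => ⟨(exists_max r.1).choose, ⟨r.1.res _,
      lt_of_le_of_lt (idc_res_le r.1 _ (exists_max r.1).choose_spec) r.2⟩,
      ⟨{a | r.1.1 a.1 (exists_max r.1).choose}, fun a b hab hb => r.1.2.2.2 _ _ _ hab hb⟩⟩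
  have hinj : Function.Injective code := by
    -- decode
    let dec : (Σ x : Fin (m + 1), Σ q : {q : PO {y : Fin (m + 1) // y ≠ x} // idc q < t}, Low q.1) →
        (Fin (m + 1) → Fin (m + 1) → Prop) := fun c a b =>
      if hb : b = c.1 then (if ha : a = c.1 then True else (⟨a, ha⟩ : {y // y ≠ c.1}) ∈ c.2.2.1)
      else (if ha : a = c.1 then False else c.2.1.1.1 ⟨a, ha⟩ ⟨b, hb⟩)
    have hdec : ∀ r, dec (code r) = r.1.1 := by
      intro r
      funext a b
      have hx := (exists_max r.1).choose_spec
      simp only [dec, code]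
      by_cases hb : b = (exists_max r.1).choose
      · by_cases ha : a = (exists_max r.1).choose
        · rw [dif_pos hb, dif_pos ha, ha, hb]
          exact (eq_true (r.1.2.1 _)).symm
        · rw [dif_pos hb, dif_neg ha]
          simp only [Set.mem_setOf_eq]
          rw [← hb]
      · by_cases ha : a = (exists_max r.1).choose
        · rw [dif_neg hb, dif_pos ha]
          refine (eq_false ?_).symm
          intro h
          rw [ha] at h
          exact hb (hx b h)
        · rw [dif_neg hb, dif_neg ha]
          rfl
    intro r s h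
    apply Subtype.ext
    apply Subtype.ext
    rw [← hdec r, ← hdec s, h]
  have h1 := Nat.card_le_card_of_injective code hinj
  refine le_trans h1 ?_
  rw [Nat.card_sigma]
  have h2 : ∀ x : Fin (m + 1), Nat.card (Σ q : {q : PO {y : Fin (m + 1) // y ≠ x} // idc q < t}, Low q.1)
      ≤ B m t * t := by
    intro x
    let : Fintype {q : PO {y : Fin (m + 1) // y ≠ x} // idc q < t} := Fintype.ofFinite _
    rw [Nat.card_sigma]
    have h3 : Nat.card {q : PO {y : Fin (m + 1) // y ≠ x} // idc q < t} = B m t := by
      rw [card_poor]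
      congr 1
      simp
    rw [← h3, Nat.card_eq_fintype_card, ← smul_eq_mul, ← card_univ, ← sum_const]
    exact sum_le_sum fun q _ => q.2.le
  refine le_trans (sum_le_sum fun x _ => h2 x) ?_
  simp

theorem B_le (t : ℕ) : ∀ m, B m t ≤ m.factorial * t ^ m
  | 0 => by
    have : B 0 t ≤ L 0 := Nat.card_le_card_of_injective (fun r => r.1) Subtype.val_injective
    refine le_trans this ?_
    have : Subsingleton (PO (Fin 0)) := ⟨fun r s => PO.ext' fun a => a.elim0⟩
    have h1 : L 0 ≤ 1 := Finite.card_le_one_iff_subsingleton.2 this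
    simpa using h1
  | m + 1 => by
    refine le_trans (B_succ_le m t) ?_
    have := B_le t m
    calc (m + 1) * (B m t * t) ≤ (m + 1) * ((m.factorial * t ^ m) * t) :=
          Nat.mul_le_mul_left _ (Nat.mul_le_mul_right _ this)
      _ = (m + 1).factorial * t ^ (m + 1) := by rw [Nat.factorial_succ, pow_succ]; ring

/-- many posets of height two -/
theorem L_ge (m : ℕ) : 2 ^ ((m / 2) * (m - m / 2)) ≤ L m := by
  classical
  let A := {i : Fin m // i.1 < m / 2}
  let C := {i : Fin m // ¬ i.1 < m / 2}
  let g : (A → C → Prop) → PO (Fin m) := fun s =>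
    ⟨fun a b => a = b ∨ ∃ (ha : a.1 < m / 2) (hb : ¬ b.1 < m / 2), s ⟨a, ha⟩ ⟨b, hb⟩, by
      refine ⟨fun a => Or.inl rfl, ?_, ?_⟩
      · rintro a b (h | ⟨ha, hb, h⟩) h'
        · exact h
        · rcases h' with h' | ⟨ha', hb', h'⟩
          · exact h'.symm
          · exact absurd ha hb'
      · rintro a b c (h | ⟨ha, hb, h⟩) h'
        · rw [h]; exact h'
        · rcases h' with h' | ⟨ha', hb', h'⟩
          · rw [← h']; exact Or.inr ⟨ha, hb, h⟩
          · exact absurd ha' hb⟩
  have hg : Function.Injective g := by
    intro s s' h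
    funext a c
    have h1 : (g s).1 a.1 c.1 ↔ (g s').1 a.1 c.1 := by rw [h]
    have hne : a.1 ≠ c.1 := by
      intro hh
      exact c.2 (hh ▸ a.2)
    simp only [g, hne, false_or] at h1
    apply propext
    constructor
    · intro hs
      obtain ⟨_, _, h2⟩ := h1.1 ⟨a.2, c.2, hs⟩
      exact h2
    · intro hs
      obtain ⟨_, _, h2⟩ := h1.2 ⟨a.2, c.2, hs⟩
      exact h2
  have h1 := Nat.card_le_card_of_injective g hg
  refine le_trans (le_of_eq ?_) h1
  have hA : Fintype.card A = m / 2 := by
    have : Fintype.card A = Fintype.card (Fin (m / 2)) := Fintype.card_congr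
      { toFun := fun i => ⟨i.1.1, i.2⟩
        invFun := fun i => ⟨⟨i.1, by have := i.2; omega⟩, i.2⟩
        left_inv := fun i => rfl
        right_inv := fun i => rfl }
    simpa using this
  have hC : Fintype.card C = m - m / 2 := by
    have : Fintype.card C = Fintype.card (Fin m) - Fintype.card A := Fintype.card_subtype_compl _
    rw [this, hA]; simp
  rw [Nat.card_fun, Nat.card_fun, Nat.card_eq_fintype_card, Nat.card_eq_fintype_card (α := A),
    Nat.card_eq_fintype_card (α := C), hA, hC]
  simp only [Fintype.card_prop]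
  rw [← pow_mul, mul_comm]

end Pool.Agent.Lib.MP_1ad8b2_co.H59
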