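import Mathlib

/-!
MP_1ad8b2_co: a poset all of whose partial automorphisms defined at almost all points are identities
is determined by few cards.
-/

set_option autoImplicit false

namespace Pool.Agent.Lib.MP_1ad8b2_co.H59

open Finset

/-- `P` is reconstructible from its deck. -/
def Recon {α : Type} (P : PartialOrder α) : Prop :=
  ∀ (β : Type) (Q : PartialOrder β) (σ : α ≃ β),
    (∀ x, Nonempty (Subrel P.le (· ≠ x) ≃r Subrel Q.le (· ≠ σ x))) → Nonempty (P.le ≃r Q.le)

/-- `P` is determined by any three of its cards. -/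
def AnyThree {α : Type} (P : PartialOrder α) : Prop :=
  ∀ (β : Type) (Q : PartialOrder β) (x : Fin 3 → α) (u : Fin 3 → β),
    Function.Injective x → Function.Injective u →
    (∀ i, Nonempty (Subrel P.le (· ≠ x i) ≃r Subrel Q.le (· ≠ u i))) → Nonempty (P.le ≃r Q.le)

/-- every poset of the size of `P`, all of whose subposets with `k` points removed embed in `P`,
is isomorphic to `P`. -/
def SubDet {α : Type} (k : ℕ) (P : PartialOrder α) : Prop :=
  ∀ (β : Type) (Q : PartialOrder β), Nat.card β = Nat.card α →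
    (∀ T : Finset β, T.card + k = Nat.card β → Nonempty (Subrel Q.le (· ∈ T) ↪r P.le)) →
    Nonempty (P.le ≃r Q.le)

/-- all partial automorphisms defined at all but at most `K` points are identities -/
def Rig {α : Type} (K : ℕ) (P : PartialOrder α) : Prop :=
  ∀ f : α → Option α,
    (∀ x y x' y', f x = some x' → f y = some y' → (P.le x y ↔ P.le x' y')) →
    Nat.card {x // f x = none} ≤ K → ∀ x y, f x = some y → y = x

theorem fin3_avoid {α : Type} (x : Fin 3 → α) (hx : Function.Injective x) (a b : α) :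
    ∃ i, a ≠ x i ∧ b ≠ x i := by
  by_contra hcon
  push Not at hcon
  have h01 : x 0 ≠ x 1 := fun h => by simpa using hx h
  have h02 : x 0 ≠ x 2 := fun h => by simpa using hx h
  have h12 : x 1 ≠ x 2 := fun h => by simpa using hx h
  have h0 := hcon 0
  have h1 := hcon 1
  have h2 := hcon 2
  by_cases ha0 : a = x 0
  · have hb1 := h1 (by rw [ha0]; exact h01)
    have hb2 := h2 (by rw [ha0]; exact h02)
    exact h12 (hb1.symm.trans hb2)
  · have hb0 := h0 ha0
    by_cases ha1 : a = x 1
    · have hb2 := h2 (by rw [ha1]; exact h12)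
      exact h02 (hb0.symm.trans hb2)
    · have hb1 := h1 ha1
      exact h01 (hb0.symm.trans hb1)

/-- composition of two partial isomorphisms, as a partial automorphism -/
theorem comp_rig {α β : Type} [Finite α] {K : ℕ} {P : PartialOrder α} (hP : Rig K P)
    {Q : PartialOrder β} (H H' : α → β → Prop)
    (h1 : ∀ z z' w w', H z w → H z' w' → (P.le z z' ↔ Q.le w w'))
    (h2 : ∀ z z' w w', H' z w → H' z' w' → (P.le z z' ↔ Q.le w w'))
    (h3 : Nat.card {z // ¬ ∃ z' w, H z w ∧ H' z' w} ≤ K) :
    ∀ z z' w, H z w → H' z' w → z' = z := by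
  classical
  let f : α → Option α := fun z => if h : ∃ z' w, H z w ∧ H' z' w then some h.choose else none
  have hf : ∀ z z', f z = some z' → ∃ w, H z w ∧ H' z' w := by
    intro z z' h
    by_cases hz : ∃ z' w, H z w ∧ H' z' w
    · have : f z = some hz.choose := dif_pos hz
      rw [this] at h
      have h' := Option.some_injective _ h
      rw [← h']
      exact hz.choose_spec
    · have : f z = none := dif_neg hz
      rw [this] at h
      exact absurd h (by simp)
  have hf0 : ∀ z, f z = none ↔ ¬ ∃ z' w, H z w ∧ H' z' w := by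
    intro z
    by_cases hz : ∃ z' w, H z w ∧ H' z' w
    · have : f z = some hz.choose := dif_pos hz
      rw [this]
      simp only [reduceCtorEq, false_iff, not_not]
      exact hz
    · have : f z = none := dif_neg hz
      simp only [this, true_iff]
      exact hz
  have key := hP f (by
    intro x y x' y' hx hy
    obtain ⟨w, hw1, hw2⟩ := hf _ _ hx
    obtain ⟨v, hv1, hv2⟩ := hf _ _ hy
    exact (h1 _ _ _ _ hw1 hv1).trans (h2 _ _ _ _ hw2 hv2).symm) (by
    refine le_trans (le_of_eq ?_) h3
    exact Nat.card_congr (Equiv.subtypeEquivRight hf0))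
  intro z z' w hz hz'
  have hex : ∃ z' w, H z w ∧ H' z' w := ⟨z', w, hz, hz'⟩
  have hsome : f z = some hex.choose := dif_pos hex
  have e1 : hex.choose = z := key _ _ hsome
  obtain ⟨v, hv1, hv2⟩ := hex.choose_spec
  rw [e1] at hv2
  have hwv : w = v := Q.le_antisymm _ _ ((h1 _ _ _ _ hz hv1).1 (P.le_refl z))
    ((h1 _ _ _ _ hv1 hz).1 (P.le_refl z))
  subst hwv
  exact P.le_antisymm _ _ ((h2 _ _ _ _ hz' hv2).2 (Q.le_refl _))
    ((h2 _ _ _ _ hv2 hz').2 (Q.le_refl _))

theorem anyThree_of_rig {α : Type} [Finite α] {P : PartialOrder α} (hP : Rig 2 P) :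
    AnyThree P := by
  classical
  intro β Q x u hx hu hcards
  have e := fun i => Classical.choice (hcards i)
  -- the graph of `e i`
  let H : Fin 3 → α → β → Prop := fun i z w => ∃ hz : z ≠ x i, (e i ⟨z, hz⟩).1 = w
  have hord : ∀ i z z' w w', H i z w → H i z' w' → (P.le z z' ↔ Q.le w w') := by
    rintro i z z' w w' ⟨hz, rfl⟩ ⟨hz', rfl⟩
    exact ((e i).map_rel_iff (a := ⟨z, hz⟩) (b := ⟨z', hz'⟩)).symm
  have hex : ∀ i z, z ≠ x i → ∃ w, H i z w := fun i z hz => ⟨_, hz, rfl⟩
  have hex' : ∀ i w, w ≠ u i → ∃ z, H i z w := by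
    intro i w hw
    refine ⟨((e i).symm ⟨w, hw⟩).1, ((e i).symm ⟨w, hw⟩).2, ?_⟩
    have : (⟨((e i).symm ⟨w, hw⟩).1, ((e i).symm ⟨w, hw⟩).2⟩ : {z // z ≠ x i}) = (e i).symm ⟨w, hw⟩ := rfl
    rw [this]
    simp
  have hne : ∀ i z w, H i z w → z ≠ x i := fun i z w h => h.1
  have hne' : ∀ i z w, H i z w → w ≠ u i := by
    rintro i z w ⟨hz, rfl⟩
    exact (e i ⟨z, hz⟩).2
  have huniq : ∀ i z w w', H i z w → H i z w' → w = w' := by
    rintro i z w w' ⟨hz, rfl⟩ ⟨hz', rfl⟩
    rfl
  have hinj : ∀ i z z' w, H i z w → H i z' w → z = z' := by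
    intro i z z' w h h'
    exact P.le_antisymm _ _ ((hord _ _ _ _ _ h h').2 (Q.le_refl _))
      ((hord _ _ _ _ _ h' h).2 (Q.le_refl _))
  have hkey : ∀ i j, i ≠ j → ∀ z z' w, H i z w → H j z' w → z' = z := by
    intro i j hij
    refine comp_rig hP (H i) (H j) (hord i) (hord j) ?_
    obtain ⟨z0, hz0⟩ := hex' i (u j) (fun h => hij (hu h).symm)
    have hsub : {z | ¬ ∃ z' w, H i z w ∧ H j z' w} ⊆ (({x i, z0} : Finset α) : Set α) := by
      intro z hz
      simp only [Set.mem_setOf_eq, not_exists, not_and] at hz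
      by_contra hcon
      simp only [coe_insert, coe_singleton, Set.mem_insert_iff, Set.mem_singleton_iff, not_or] at hcon
      obtain ⟨w, hw⟩ := hex i z hcon.1
      have hwu : w ≠ u j := by
        rintro rfl
        exact hcon.2 (hinj i _ _ _ hw hz0)
      obtain ⟨z', hz'⟩ := hex' j w hwu
      exact hz z' w hw hz'
    have h1 := Nat.card_mono (Finset.finite_toSet _) hsub
    refine le_trans h1 ?_
    rw [Nat.card_eq_card_toFinset]
    simp only [toFinset_coe]
    exact card_le_two
  -- `H i` and `H j` agree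
  have hagree : ∀ i j z w, H i z w → w ≠ u j → H j z w := by
    intro i j z w h hw
    by_cases hij : i = j
    · rw [← hij]; exact h
    · obtain ⟨z', hz'⟩ := hex' j w hw
      have := hkey i j hij z z' w h hz'
      rw [← this]
      exact hz'
  have hxu : ∀ i j, i ≠ j → H i (x j) (u j) := by
    intro i j hij
    obtain ⟨w, hw⟩ := hex i (x j) (fun h => hij (hx h).symm)
    by_cases hwu : w = u j
    · rw [← hwu]; exact hw
    · exact absurd rfl (hne j _ _ (hagree i j _ _ hw hwu))
  have hwd : ∀ i j z w w', H i z w → H j z w' → w = w' := by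
    intro i j z w w' h h'
    by_cases hij : i = j
    · subst hij
      exact huniq _ _ _ _ h h'
    · by_cases hw : w = u j
      · subst hw
        have := hinj i _ _ _ h (hxu i j hij)
        exact absurd this (hne j _ _ h')
      · exact huniq j z _ _ (hagree i j z w h hw) h'
  have hF : ∀ z, ∃ w, ∀ i w', H i z w' → w = w' := by
    intro z
    obtain ⟨i, hi, -⟩ := fin3_avoid x hx z z
    obtain ⟨w, hw⟩ := hex i z hi
    exact ⟨w, fun j w' h => hwd i j z w w' hw h⟩
  choose F hF using hF
  have hFH : ∀ i z, z ≠ x i → H i z (F z) := by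
    intro i z hz
    obtain ⟨w, hw⟩ := hex i z hz
    rw [hF z i w hw]
    exact hw
  have hFord : ∀ z z', P.le z z' ↔ Q.le (F z) (F z') := by
    intro z z'
    obtain ⟨i, hi, hi'⟩ := fin3_avoid x hx z z'
    exact hord i _ _ _ _ (hFH i z hi) (hFH i z' hi')
  have hFinj : Function.Injective F := by
    intro z z' h
    refine P.le_antisymm _ _ ((hFord z z').2 ?_) ((hFord z' z).2 ?_)
    · rw [h]
    · rw [h]
  have hFsurj : Function.Surjective F := by
    intro w
    obtain ⟨i, hi, -⟩ := fin3_avoid u hu w w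
    obtain ⟨z, hz⟩ := hex' i w hi
    exact ⟨z, hF z i w hz⟩
  exact ⟨⟨Equiv.ofBijective F ⟨hFinj, hFsurj⟩, fun {a b} => (hFord a b).symm⟩⟩

theorem subDet_of_rig {α : Type} [Finite α] {K k : ℕ} (hk : 2 * k ≤ K) (hn : k + 2 ≤ Nat.card α)
    {P : PartialOrder α} (hP : Rig K P) : SubDet k P := by
  classical
  intro β Q hcard e
  have hβ : Finite β := Nat.finite_of_card_ne_zero (by omega)
  let : Fintype β := Fintype.ofFinite β
  let : Fintype α := Fintype.ofFinite α
  have hcβ : Fintype.card β = Nat.card α := by rw [← hcard, Nat.card_eq_fintype_card]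
  let H : Finset β → α → β → Prop := fun T z w =>
    ∃ (hT : T.card + k = Nat.card β) (hw : w ∈ T), (e T hT).some ⟨w, hw⟩ = z
  have hord : ∀ T z z' w w', H T z w → H T z' w' → (P.le z z' ↔ Q.le w w') := by
    rintro T z z' w w' ⟨hT, hw, rfl⟩ ⟨hT', hw', rfl⟩
    exact (e T hT).some.map_rel_iff (a := ⟨w, hw⟩) (b := ⟨w', hw'⟩)
  have hkey : ∀ T T' : Finset β, T.card + k = Nat.card β → T'.card + k = Nat.card β →
      ∀ z z' w, H T z w → H T' z' w → z' = z := by
    intro T T' hT hT'
    refine comp_rig hP (H T) (H T') (hord T) (hord T') ?_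
    -- the complement contains the image of the intersection
    have h1 : (T ∩ T').card + 2 * k ≥ Fintype.card β := by
      have h2 := card_union_add_card_inter T T'
      have h3 : (T ∪ T').card ≤ Fintype.card β := card_le_univ _
      rw [Nat.card_eq_fintype_card] at hT hT'
      omega
    let N : Finset α := univ.filter (fun z => ∃ z' w, H T z w ∧ H T' z' w)
    have h2 : (T ∩ T').card ≤ N.card := by
      have hg : ∀ w : β, ∃ z : α, w ∈ T ∩ T' → H T z w := by
        intro w
        by_cases hw : w ∈ T ∩ T'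
        · exact ⟨(e T hT).some ⟨w, (mem_inter.1 hw).1⟩, fun _ => ⟨hT, _, rfl⟩⟩
        · have : Nonempty α := (Nat.card_pos_iff.1 (by omega)).1
          exact ⟨Classical.arbitrary α, fun h => absurd h hw⟩
      choose g hg using hg
      refine card_le_card_of_injOn g ?_ ?_
      · intro w hw
        have hw' : w ∈ T ∩ T' := hw
        simp only [N, coe_filter, mem_univ, true_and, Set.mem_setOf_eq]
        exact ⟨(e T' hT').some ⟨w, (mem_inter.1 hw').2⟩, w, hg w hw', hT', _, rfl⟩
      · intro w hw w' hw' hww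
        have e1 := hg w hw
        have e2 := hg w' hw'
        rw [← hww] at e2
        exact Q.le_antisymm _ _ ((hord _ _ _ _ _ e1 e2).1 (P.le_refl _))
          ((hord _ _ _ _ _ e2 e1).1 (P.le_refl _))
    have h3 : Nat.card {z // ¬ ∃ z' w, H T z w ∧ H T' z' w} + N.card = Fintype.card α := by
      rw [Nat.card_eq_fintype_card, Fintype.card_subtype, add_comm]
      rw [← card_univ]
      exact card_filter_add_card_filter_not _
    have h4 : Fintype.card α = Fintype.card β := by
      rw [hcβ, Nat.card_eq_fintype_card]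
    omega
  have hpair : ∀ a b : β, ∃ T : Finset β, T.card + k = Nat.card β ∧ a ∈ T ∧ b ∈ T := by
    intro a b
    have h1 : ({a, b} : Finset β).card ≤ Nat.card β - k := card_le_two.trans (by omega)
    have h2 : Nat.card β - k ≤ (univ : Finset β).card := by
      rw [card_univ, Nat.card_eq_fintype_card]; omega
    obtain ⟨T, hT1, -, hT2⟩ := exists_subsuperset_card_eq (subset_univ _) h1 h2
    refine ⟨T, by omega, hT1 (by simp), hT1 (by simp)⟩
  have hG : ∀ w : β, ∃ z, ∀ T, T.card + k = Nat.card β → w ∈ T → H T z w := by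
    intro w
    obtain ⟨T, hT, hw, -⟩ := hpair w w
    refine ⟨(e T hT).some ⟨w, hw⟩, fun T' hT' hw' => ?_⟩
    have e1 : H T ((e T hT).some ⟨w, hw⟩) w := ⟨hT, hw, rfl⟩
    have e2 : H T' ((e T' hT').some ⟨w, hw'⟩) w := ⟨hT', hw', rfl⟩
    rw [← hkey T T' hT hT' _ _ w e1 e2]
    exact e2
  choose G hG using hG
  have hGord : ∀ w w', P.le (G w) (G w') ↔ Q.le w w' := by
    intro w w'
    obtain ⟨T, hT, hw, hw'⟩ := hpair w w'
    exact hord T _ _ _ _ (hG w T hT hw) (hG w' T hT hw')
  have hGinj : Function.Injective G := by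
    intro w w' h
    refine Q.le_antisymm _ _ ((hGord w w').1 ?_) ((hGord w' w).1 ?_)
    · rw [h]
    · rw [h]
  have hGbij : Function.Bijective G := by
    rw [Fintype.bijective_iff_injective_and_card]
    exact ⟨hGinj, by rw [hcβ, Nat.card_eq_fintype_card]⟩
  exact ⟨(⟨Equiv.ofBijective G hGbij, fun {a b} => hGord a b⟩ : Q.le ≃r P.le).symm⟩

theorem recon_of_subDet {α : Type} [Finite α] {P : PartialOrder α} (hP : SubDet 1 P) :
    Recon P := by
  classical
  intro β Q σ hσ
  have hcard : Nat.card β = Nat.card α := (Nat.card_congr σ).symm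
  have : Finite β := Finite.of_equiv _ σ
  let : Fintype β := Fintype.ofFinite β
  refine hP β Q hcard ?_
  intro T hT
  have h1 : Tᶜ.card = 1 := by
    have := card_compl_add_card T
    rw [Nat.card_eq_fintype_card] at hT
    omega
  obtain ⟨u, hu⟩ := card_eq_one.1 h1
  have h2 : ∀ w, w ∈ T → w ≠ u := by
    rintro w hw rfl
    have : w ∈ Tᶜ := by rw [hu]; simp
    exact (mem_compl.1 this) hw
  obtain ⟨e⟩ := hσ (σ.symm u)
  have hu2 : σ (σ.symm u) = u := by simp
  let g : {w // w ∈ T} → α := fun w => (e.symm ⟨w.1, by rw [hu2]; exact h2 w.1 w.2⟩).1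
  have hg : ∀ a b, P.le (g a) (g b) ↔ Q.le a.1 b.1 := by
    intro a b
    exact (e.symm.map_rel_iff (a := ⟨a.1, by rw [hu2]; exact h2 a.1 a.2⟩)
      (b := ⟨b.1, by rw [hu2]; exact h2 b.1 b.2⟩))
  refine ⟨⟨⟨g, ?_⟩, fun {a b} => hg a b⟩⟩
  intro a b hab
  apply Subtype.ext
  refine Q.le_antisymm _ _ ((hg a b).1 ?_) ((hg b a).1 ?_)
  · rw [hab]
  · rw [hab]

end Pool.Agent.Lib.MP_1ad8b2_co.H59
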