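import Pool.Agent.Lib.MP_1ad8b2_co.H59.Sum
import Pool.Agent.Lib.MP_1ad8b2_co.H59.Glue

/-!
MP_1ad8b2_co: almost all labelled and almost all unlabelled posets have only trivial partial
automorphisms defined at 99 percent of the points.
-/

set_option autoImplicit false

namespace Pool.Agent.Lib.MP_1ad8b2_co.H59

open Finset

/-- partial orders as structures and as relations -/
def toPO (α : Type) : PartialOrder α ≃ PO α where
  toFun P := ⟨P.le, P.le_refl, fun a b h h' => P.le_antisymm a b h h',
    fun a b c h h' => P.le_trans a b c h h'⟩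
  invFun r :=
    { le := r.1
      le_refl := r.2.1
      le_trans := fun a b c h h' => r.2.2.2 a b c h h'
      le_antisymm := fun a b h h' => r.2.2.1 a b h h' }
  left_inv P := by
    apply PartialOrder.ext
    intro a b
    exact Iff.rfl
  right_inv r := PO.ext' fun a b => Iff.rfl

instance (α : Type) [Finite α] : Finite (PartialOrder α) := Finite.of_equiv _ (toPO α).symm

/-- rigidity, for relations -/
def RigR {α : Type} (K : ℕ) (r : PO α) : Prop :=
  ∀ f : α → Option α, PIso r f → Nat.card {x // f x = none} ≤ K → ∀ x y, f x = some y → y = x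

theorem rigR_toPO {α : Type} {K : ℕ} {P : PartialOrder α} : RigR K (toPO α P) ↔ Rig K P :=
  Iff.rfl

theorem RigR.congr {α β : Type} {K : ℕ} {r : PO α} (h : RigR K r) (e : α ≃ β) :
    RigR K (PO.congr e r) := by
  intro f hf hK x y hxy
  have h1 := h (fun a => (f (e a)).map e.symm) (by
    intro a b a' b' ha hb
    obtain ⟨a1, ha1, rfl⟩ := Option.map_eq_some_iff.1 ha
    obtain ⟨b1, hb1, rfl⟩ := Option.map_eq_some_iff.1 hb
    have := hf (e a) (e b) a1 b1 ha1 hb1
    simpa [PO.congr] using this) (by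
    refine le_trans (le_of_eq ?_) hK
    refine Nat.card_congr (e.subtypeEquiv ?_)
    intro a
    simp) (e.symm x) (e.symm y) (by simp [hxy])
  exact e.symm.injective h1

theorem rigR_congr_iff {α β : Type} {K : ℕ} {r : PO α} (e : α ≃ β) :
    RigR K (PO.congr e r) ↔ RigR K r := by
  constructor
  · intro h
    have := h.congr e.symm
    have e1 : PO.congr e.symm (PO.congr e r) = r := PO.ext' fun a b => by simp [PO.congr]
    rwa [e1] at this
  · intro h
    exact h.congr e

theorem exists_FF {n K : ℕ} {r : PO (Fin n)} (h : ¬ RigR K r) : ∃ f ∈ FF n K, PIso r f := by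
  classical
  unfold RigR at h
  push Not at h
  obtain ⟨f, hf, hK, x, y, hxy, hne⟩ := h
  refine ⟨f, mem_FF.2 ⟨hf.inj, ?_, ?_⟩, hf⟩
  · rw [Nat.card_eq_fintype_card, Fintype.card_subtype] at hK
    convert hK
  · refine card_pos.2 ⟨x, ?_⟩
    simp only [moved, mem_filter, mem_univ, true_and]
    rw [hxy]
    refine ⟨by simp, fun h => hne (Option.some_injective _ h)⟩

theorem card_not_rig_le (n K : ℕ) :
    Nat.card {r : PO (Fin n) // ¬ RigR K r} ≤ ∑ f ∈ FF n K, Nat.card {r : PO (Fin n) // PIso r f} := by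
  classical
  let g : {r : PO (Fin n) // ¬ RigR K r} → Σ f : {f // f ∈ FF n K}, {r : PO (Fin n) // PIso r f.1} :=
    fun r => ⟨⟨(exists_FF r.2).choose, (exists_FF r.2).choose_spec.1⟩, r.1,
      (exists_FF r.2).choose_spec.2⟩
  have hg : Function.Injective g := by
    intro r s h
    have h1 : (g r).2.1 = (g s).2.1 := by rw [h]
    exact Subtype.ext h1
  refine (Nat.card_le_card_of_injective g hg).trans ?_
  rw [Nat.card_sigma]
  exact le_of_eq (sum_coe_sort (FF n K) (fun f => Nat.card {r : PO (Fin n) // PIso r f}))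

instance (n : ℕ) : MulAction (Equiv.Perm (Fin n)) (PO (Fin n)) where
  smul g r := PO.congr g r
  one_smul r := PO.ext' fun a b => Iff.rfl
  mul_smul g h r := PO.ext' fun a b => Iff.rfl

theorem smul_def {n : ℕ} (g : Equiv.Perm (Fin n)) (r : PO (Fin n)) : g • r = PO.congr g r := rfl

theorem card_fixed_le (n K : ℕ) :
    ∑ g ∈ (univ : Finset (Equiv.Perm (Fin n))).erase 1,
      Nat.card (MulAction.fixedBy (PO (Fin n)) g) ≤
    ∑ f ∈ FF n K, Nat.card {r : PO (Fin n) // PIso r f} := by
  classical
  let φ : Equiv.Perm (Fin n) → (Fin n → Option (Fin n)) := fun g x => some (g x)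
  have hφ : Function.Injective φ := by
    intro g h hgh
    ext x
    have := congrFun hgh x
    have := Option.some_injective _ this
    rw [this]
  have h1 : ∀ g ∈ (univ : Finset (Equiv.Perm (Fin n))).erase 1,
      Nat.card (MulAction.fixedBy (PO (Fin n)) g) ≤ Nat.card {r : PO (Fin n) // PIso r (φ g)} := by
    intro g _
    refine Nat.card_le_card_of_injective (fun r => ⟨r.1, ?_⟩) ?_
    · intro x y x' y' hx hy
      have hx' := Option.some_injective _ hx
      have hy' := Option.some_injective _ hy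
      have hr : g • r.1 = r.1 := r.2
      rw [smul_def] at hr
      have : (PO.congr g r.1).1 x' y' ↔ r.1.1 x' y' := by rw [hr]
      rw [← this, ← hx', ← hy']
      simp [PO.congr]
    · intro r s h
      apply Subtype.ext
      have h2 := congrArg Subtype.val h
      exact h2
  refine (sum_le_sum h1).trans ?_
  rw [← sum_image (s := (univ : Finset (Equiv.Perm (Fin n))).erase 1) (g := φ)
    (f := fun f => Nat.card {r : PO (Fin n) // PIso r f}) (fun g _ h _ hgh => hφ hgh)]
  refine sum_le_sum_of_subset ?_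
  intro f hf
  obtain ⟨g, hg, rfl⟩ := mem_image.1 hf
  refine mem_FF.2 ⟨?_, ?_, ?_⟩
  · intro x y z hx hy
    have hx' := Option.some_injective _ hx
    have hy' := Option.some_injective _ hy
    exact g.injective (hx'.trans hy'.symm)
  · simp [φ]
  · have hg1 : g ≠ 1 := (mem_erase.1 hg).1
    obtain ⟨x, hx⟩ : ∃ x, g x ≠ x := by
      by_contra hcon
      push Not at hcon
      exact hg1 (Equiv.ext hcon)
    refine card_pos.2 ⟨x, ?_⟩
    simp only [moved, mem_filter, mem_univ, true_and, φ]
    exact ⟨by simp, fun h => hx (Option.some_injective _ h)⟩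

/-- isomorphism of labelled posets -/
def isoSetoid (n : ℕ) : Setoid (PartialOrder (Fin n)) where
  r P Q := Nonempty (P.le ≃r Q.le)
  iseqv :=
    { refl := fun P => ⟨RelIso.refl _⟩
      symm := fun ⟨e⟩ => ⟨e.symm⟩
      trans := fun ⟨e⟩ ⟨e'⟩ => ⟨e.trans e'⟩ }

theorem iso_iff {n : ℕ} (P Q : PartialOrder (Fin n)) :
    Nonempty (P.le ≃r Q.le) ↔ ∃ g : Equiv.Perm (Fin n), g • toPO _ P = toPO _ Q := by
  constructor
  · rintro ⟨e⟩
    refine ⟨e.toEquiv, PO.ext' fun a b => ?_⟩
    have := e.map_rel_iff (a := e.symm a) (b := e.symm b)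
    simp only [RelIso.apply_symm_apply] at this
    exact this.symm
  · rintro ⟨g, hg⟩
    refine ⟨⟨g, fun {a b} => ?_⟩⟩
    have h1 : (g • toPO _ P).1 (g a) (g b) ↔ (toPO _ Q).1 (g a) (g b) := by rw [hg]
    rw [smul_def] at h1
    have h2 : (PO.congr g (toPO _ P)).1 (g a) (g b) ↔ P.le a b := by
      simp [PO.congr, toPO]
    exact h1.symm.trans h2

theorem card_orbits_ge (n : ℕ) :
    L n ≤ Nat.card (Quotient (isoSetoid n)) * n.factorial := by
  classical
  let : Fintype (PO (Fin n)) := Fintype.ofFinite _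
  let : ∀ g : Equiv.Perm (Fin n), Fintype (MulAction.fixedBy (PO (Fin n)) g) :=
    fun g => Fintype.ofFinite _
  let : Fintype (Quotient (MulAction.orbitRel (Equiv.Perm (Fin n)) (PO (Fin n)))) :=
    Fintype.ofFinite _
  have h1 := MulAction.sum_card_fixedBy_eq_card_orbits_mul_card_group (Equiv.Perm (Fin n)) (PO (Fin n))
  rw [Fintype.card_perm, Fintype.card_fin] at h1
  have h2 : L n ≤ ∑ g : Equiv.Perm (Fin n), Fintype.card (MulAction.fixedBy (PO (Fin n)) g) := by
    refine le_trans ?_ (single_le_sum (f := fun g => Fintype.card (MulAction.fixedBy (PO (Fin n)) g))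
      (fun g _ => Nat.zero_le _) (mem_univ 1))
    unfold L
    rw [Nat.card_eq_fintype_card]
    refine Fintype.card_le_of_injective (fun r => ⟨r, ?_⟩) ?_
    · exact one_smul _ r
    · intro r s h
      exact congrArg Subtype.val h
  have : Finite (Quotient (isoSetoid n)) := Quotient.finite _
  have h3 : Fintype.card (Quotient (MulAction.orbitRel (Equiv.Perm (Fin n)) (PO (Fin n)))) ≤
      Nat.card (Quotient (isoSetoid n)) := by
    rw [← Nat.card_eq_fintype_card]
    refine Nat.card_le_card_of_injective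
      (fun q => (Quotient.mk (isoSetoid n) ((toPO _).symm q.out))) ?_
    intro q q' h
    obtain ⟨g, hg⟩ := (iso_iff ((toPO _).symm q.out) ((toPO _).symm q'.out)).1 (Quotient.exact h)
    simp only [Equiv.apply_symm_apply] at hg
    rw [← Quotient.out_eq q, ← Quotient.out_eq q']
    refine Quotient.sound ?_
    have : g⁻¹ • q'.out = q.out := by rw [← hg, inv_smul_smul]
    exact ⟨g⁻¹, this⟩
  rw [h1] at h2
  exact h2.trans (Nat.mul_le_mul_right _ h3)

theorem card_bad_orbits_le (n K : ℕ) :
    Nat.card {c : Quotient (isoSetoid n) // ∃ P, Quotient.mk _ P = c ∧ ¬ Rig K P} * n.factorial ≤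
      2 * ∑ f ∈ FF n K, Nat.card {r : PO (Fin n) // PIso r f} := by
  classical
  let X := {r : PO (Fin n) // ¬ RigR K r}
  let act : MulAction (Equiv.Perm (Fin n)) X :=
    { smul := fun g r => ⟨g • r.1, by rw [smul_def, rigR_congr_iff]; exact r.2⟩
      one_smul := fun r => Subtype.ext (one_smul _ r.1)
      mul_smul := fun g h r => Subtype.ext (mul_smul g h r.1) }
  have hact : ∀ (g : Equiv.Perm (Fin n)) (r : X), (g • r).1 = g • r.1 := fun g r => rfl
  let : Fintype X := Fintype.ofFinite _
  let : ∀ g : Equiv.Perm (Fin n), Fintype (MulAction.fixedBy X g) :=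
    fun g => Fintype.ofFinite _
  let : Fintype (Quotient (MulAction.orbitRel (Equiv.Perm (Fin n)) X)) :=
    Fintype.ofFinite _
  have h1 := MulAction.sum_card_fixedBy_eq_card_orbits_mul_card_group (Equiv.Perm (Fin n)) X
  rw [Fintype.card_perm, Fintype.card_fin] at h1
  have h2 : ∑ g : Equiv.Perm (Fin n), Fintype.card (MulAction.fixedBy X g) ≤
      Nat.card X + ∑ g ∈ (univ : Finset (Equiv.Perm (Fin n))).erase 1,
        Nat.card (MulAction.fixedBy (PO (Fin n)) g) := by
    rw [← add_sum_erase univ _ (mem_univ (1 : Equiv.Perm (Fin n)))]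
    refine Nat.add_le_add ?_ (sum_le_sum fun g _ => ?_)
    · rw [← Nat.card_eq_fintype_card]
      exact Nat.card_le_card_of_injective (fun r => r.1) Subtype.val_injective
    · rw [← Nat.card_eq_fintype_card]
      refine Nat.card_le_card_of_injective (fun r => ⟨r.1.1, ?_⟩) ?_
      · have : g • r.1 = r.1 := r.2
        have h3 := congrArg Subtype.val this
        rw [hact] at h3
        exact h3
      · intro r s h
        have h3 := congrArg Subtype.val h
        exact Subtype.ext (Subtype.ext h3)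
  have h3 := card_not_rig_le n K
  have h4 := card_fixed_le n K
  have h5 : Nat.card {c : Quotient (isoSetoid n) // ∃ P, Quotient.mk _ P = c ∧ ¬ Rig K P} ≤
      Fintype.card (Quotient (MulAction.orbitRel (Equiv.Perm (Fin n)) X)) := by
    rw [← Nat.card_eq_fintype_card]
    let g : {c : Quotient (isoSetoid n) // ∃ P, Quotient.mk _ P = c ∧ ¬ Rig K P} →
        Quotient (MulAction.orbitRel (Equiv.Perm (Fin n)) X) :=
      fun c => Quotient.mk _ (⟨toPO _ c.2.choose, c.2.choose_spec.2⟩ : X)
    refine Nat.card_le_card_of_injective g ?_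
    intro c c' h
    have h6 := Quotient.exact h
    obtain ⟨σ, hσ⟩ := h6
    have h7 : σ • toPO _ c'.2.choose = toPO _ c.2.choose := congrArg Subtype.val hσ
    have h8 : Nonempty (c'.2.choose.le ≃r c.2.choose.le) := (iso_iff _ _).2 ⟨σ, h7⟩
    apply Subtype.ext
    rw [← c.2.choose_spec.1, ← c'.2.choose_spec.1]
    exact (Quotient.sound h8).symm
  calc _ ≤ Fintype.card (Quotient (MulAction.orbitRel (Equiv.Perm (Fin n)) X)) * n.factorial :=
        Nat.mul_le_mul_right _ h5
    _ = ∑ g : Equiv.Perm (Fin n), Fintype.card (MulAction.fixedBy X g) := h1.symm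
    _ ≤ Nat.card X + ∑ g ∈ (univ : Finset (Equiv.Perm (Fin n))).erase 1,
        Nat.card (MulAction.fixedBy (PO (Fin n)) g) := h2
    _ ≤ 2 * ∑ f ∈ FF n K, Nat.card {r : PO (Fin n) // PIso r f} := by
        have : Nat.card X ≤ ∑ f ∈ FF n K, Nat.card {r : PO (Fin n) // PIso r f} := h3
        omega

theorem good_of_rig {n : ℕ} (hn : 200 ≤ n) {P : PartialOrder (Fin n)} (hP : Rig (n / 100) P) :
    Recon P ∧ AnyThree P ∧ ∀ k, 200 * k ≤ n → SubDet k P := by
  have h1 : ∀ k, 200 * k ≤ n → SubDet k P := by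
    intro k hk
    refine subDet_of_rig (K := n / 100) (by omega) ?_ hP
    rw [Nat.card_eq_fintype_card, Fintype.card_fin]
    omega
  refine ⟨recon_of_subDet (h1 1 (by omega)), ?_, h1⟩
  apply anyThree_of_rig
  intro f hf h2
  exact hP f hf (h2.trans (by omega))

end Pool.Agent.Lib.MP_1ad8b2_co.H59
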