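import Pool.Agent.Lib.MP_1ad8b2_co.H59.Nested

/-!
MP_1ad8b2_co: main theorem.
-/

set_option autoImplicit false

namespace Pool.Agent.Lib.MP_1ad8b2_co.H59

open Finset

theorem card_or_le {X : Type} [Finite X] (A B : X → Prop) :
    Nat.card {x // A x ∨ B x} ≤ Nat.card {x // A x} + Nat.card {x // B x} := by
  classical
  rw [← Nat.card_sum]
  let g : {x // A x ∨ B x} → {x // A x} ⊕ {x // B x} := fun x =>
    if h : A x.1 then Sum.inl ⟨x.1, h⟩ else Sum.inr ⟨x.1, x.2.resolve_left h⟩
  have hg : ∀ x, (Sum.elim (fun y => y.1) (fun y => y.1) (g x) : X) = x.1 := by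
    intro x
    by_cases h : A x.1
    · simp only [g]
      rw [dif_pos h]
      rfl
    · simp only [g]
      rw [dif_neg h]
      rfl
  refine Nat.card_le_card_of_injective g ?_
  intro x y h
  apply Subtype.ext
  rw [← hg x, ← hg y, h]

/-- the properties of `P` which we prove for almost all `P` -/
def Good (n : ℕ) (P : PartialOrder (Fin n)) : Prop :=
  Recon P ∧ SomeTwo P ∧ AnyThree P ∧ ∀ k, 200 * k ≤ n → SubDet k P

theorem good_of {n : ℕ} (hn : 200 ≤ n) {P : PartialOrder (Fin n)} (hP : Rig (n / 100) P)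
    (hN : ¬ Nested P) : Good n P := by
  obtain ⟨h1, h2, h3⟩ := good_of_rig hn hP
  refine ⟨h1, ?_, h2, h3⟩
  refine someTwo_of_rig ?_ hN
  intro f hf h2
  exact hP f hf (h2.trans (by omega))

theorem main : ∃ n₀ : ℕ, ∀ n : ℕ, n₀ ≤ n →
    (Nat.card {P : PartialOrder (Fin n) // ¬ Good n P} : ℝ) ≤
      2 ^ (-(n : ℝ) / 20) * Nat.card (PartialOrder (Fin n)) ∧
    (Nat.card {c : Quotient (isoSetoid n) // ∃ P, Quotient.mk _ P = c ∧ ¬ Good n P} : ℝ) ≤
      2 ^ (-(n : ℝ) / 20) * Nat.card (Quotient (isoSetoid n)) := by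
  obtain ⟨n₀, hn₀⟩ := sum_count
  refine ⟨max n₀ 200, fun n hn => ?_⟩
  have hn1 : n₀ ≤ n := (le_max_left _ _).trans hn
  have hn2 : 200 ≤ n := (le_max_right _ _).trans hn
  have hn2' : (200 : ℝ) ≤ n := by exact_mod_cast hn2
  have hsum := hn₀ n hn1
  have hfin : Finite (Quotient (isoSetoid n)) := Quotient.finite _
  set q : ℝ := 2 ^ (-((6 / 100 : ℝ) * n)) with hq
  have hq0 : 0 < q := Real.rpow_pos_of_pos (by norm_num) _
  have h3q : 3 * q ≤ 2 ^ (-(n : ℝ) / 20) := by
    have e : 4 * q = 2 ^ (2 + -((6 / 100 : ℝ) * n)) := by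
      rw [Real.rpow_add (by norm_num), hq]
      norm_num
    have : (2 : ℝ) ^ (2 + -((6 / 100 : ℝ) * n)) ≤ 2 ^ (-(n : ℝ) / 20) := by
      refine Real.rpow_le_rpow_of_exponent_le (by norm_num) ?_
      linarith
    linarith
  have hL : (0 : ℝ) ≤ L n := Nat.cast_nonneg _
  have hnest := nested_small hn2
  rw [← hq] at hnest
  have hfac : (0 : ℝ) < n.factorial := by exact_mod_cast Nat.factorial_pos n
  have hfac1 : (1 : ℝ) ≤ n.factorial := by exact_mod_cast Nat.factorial_pos n
  have hcn : (Nat.card {P : PartialOrder (Fin n) // Nested P} : ℝ) ≤ ((n + 2 : ℕ) : ℝ) ^ (2 * n) := by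
    exact_mod_cast card_nested_le n
  have hcn2 : (Nat.card {P : PartialOrder (Fin n) // Nested P} : ℝ) * n.factorial ≤ q * L n :=
    (mul_le_mul_of_nonneg_right hcn hfac.le).trans hnest
  constructor
  · have e1 : Nat.card {P : PartialOrder (Fin n) // ¬ Rig (n / 100) P} =
        Nat.card {r : PO (Fin n) // ¬ RigR (n / 100) r} :=
      Nat.card_congr ((toPO _).subtypeEquiv fun P => Iff.rfl)
    have e2 : Nat.card (PartialOrder (Fin n)) = L n := Nat.card_congr (toPO _)
    have h0 : Nat.card {P : PartialOrder (Fin n) // ¬ Good n P} ≤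
        Nat.card {P : PartialOrder (Fin n) // ¬ Rig (n / 100) P} +
        Nat.card {P : PartialOrder (Fin n) // Nested P} := by
      refine le_trans ?_ (card_or_le _ _)
      refine Nat.card_le_card_of_injective (fun P => ⟨P.1, ?_⟩) ?_
      · by_contra hcon
        rw [not_or, not_not] at hcon
        exact P.2 (good_of hn2 hcon.1 hcon.2)
      · intro P Q h
        exact Subtype.ext (Subtype.mk.inj h)
    have h0' : (Nat.card {P : PartialOrder (Fin n) // ¬ Good n P} : ℝ) ≤
        Nat.card {P : PartialOrder (Fin n) // ¬ Rig (n / 100) P} +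
        Nat.card {P : PartialOrder (Fin n) // Nested P} := by exact_mod_cast h0
    rw [e2]
    rw [e1] at h0'
    have h1 : (Nat.card {r : PO (Fin n) // ¬ RigR (n / 100) r} : ℝ) ≤
        ∑ f ∈ FF n (n / 100), (Nat.card {r : PO (Fin n) // PIso r f} : ℝ) := by
      exact_mod_cast card_not_rig_le n (n / 100)
    have h2 : (Nat.card {P : PartialOrder (Fin n) // Nested P} : ℝ) ≤ q * L n := by
      refine le_trans ?_ hcn2
      exact le_mul_of_one_le_right (Nat.cast_nonneg _) hfac1
    calc (Nat.card {P : PartialOrder (Fin n) // ¬ Good n P} : ℝ) ≤ q * L n + q * L n := by linarith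
      _ ≤ 3 * q * L n := by nlinarith [mul_nonneg hq0.le hL]
      _ ≤ _ := mul_le_mul_of_nonneg_right h3q hL
  · have h0 : Nat.card {c : Quotient (isoSetoid n) // ∃ P, Quotient.mk _ P = c ∧ ¬ Good n P} ≤
        Nat.card {c : Quotient (isoSetoid n) // ∃ P, Quotient.mk _ P = c ∧ ¬ Rig (n / 100) P} +
        Nat.card {c : Quotient (isoSetoid n) // ∃ P, Quotient.mk _ P = c ∧ Nested P} := by
      refine le_trans ?_ (card_or_le _ _)
      refine Nat.card_le_card_of_injective (fun c => ⟨c.1, ?_⟩) ?_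
      · obtain ⟨P, hP, hP'⟩ := c.2
        by_cases hr : Rig (n / 100) P
        · by_cases hN : Nested P
          · exact Or.inr ⟨P, hP, hN⟩
          · exact absurd (good_of hn2 hr hN) hP'
        · exact Or.inl ⟨P, hP, hr⟩
      · intro P Q h
        exact Subtype.ext (Subtype.mk.inj h)
    have h0' : (Nat.card {c : Quotient (isoSetoid n) // ∃ P, Quotient.mk _ P = c ∧ ¬ Good n P} : ℝ) ≤
        Nat.card {c : Quotient (isoSetoid n) // ∃ P, Quotient.mk _ P = c ∧ ¬ Rig (n / 100) P} +
        Nat.card {c : Quotient (isoSetoid n) // ∃ P, Quotient.mk _ P = c ∧ Nested P} := by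
      exact_mod_cast h0
    have h1 : (Nat.card {c : Quotient (isoSetoid n) // ∃ P, Quotient.mk _ P = c ∧ ¬ Rig (n / 100) P} : ℝ) *
        n.factorial ≤ 2 * ∑ f ∈ FF n (n / 100), (Nat.card {r : PO (Fin n) // PIso r f} : ℝ) := by
      exact_mod_cast card_bad_orbits_le n (n / 100)
    have h2 : (L n : ℝ) ≤ Nat.card (Quotient (isoSetoid n)) * n.factorial := by
      exact_mod_cast card_orbits_ge n
    have h3 : (Nat.card {c : Quotient (isoSetoid n) // ∃ P, Quotient.mk _ P = c ∧ Nested P} : ℝ) ≤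
        Nat.card {P : PartialOrder (Fin n) // Nested P} := by
      have : Nat.card {c : Quotient (isoSetoid n) // ∃ P, Quotient.mk _ P = c ∧ Nested P} ≤
          Nat.card {P : PartialOrder (Fin n) // Nested P} := by
        refine Nat.card_le_card_of_injective (fun c => ⟨c.2.choose, c.2.choose_spec.2⟩) ?_
        intro c c' h
        have h4 := Subtype.mk.inj h
        apply Subtype.ext
        rw [← c.2.choose_spec.1, ← c'.2.choose_spec.1, h4]
      exact_mod_cast this
    have h4 : (Nat.card {c : Quotient (isoSetoid n) // ∃ P, Quotient.mk _ P = c ∧ ¬ Good n P} : ℝ) *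
        n.factorial ≤ (2 ^ (-(n : ℝ) / 20) * Nat.card (Quotient (isoSetoid n))) * n.factorial := by
      calc (Nat.card {c : Quotient (isoSetoid n) // ∃ P, Quotient.mk _ P = c ∧ ¬ Good n P} : ℝ) *
          n.factorial
          ≤ (Nat.card {c : Quotient (isoSetoid n) // ∃ P, Quotient.mk _ P = c ∧ ¬ Rig (n / 100) P} +
            Nat.card {P : PartialOrder (Fin n) // Nested P}) * n.factorial :=
            mul_le_mul_of_nonneg_right (by linarith) hfac.le
        _ ≤ 2 * (q * L n) + q * L n := by rw [add_mul]; linarith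
        _ = 3 * q * L n := by ring
        _ ≤ 2 ^ (-(n : ℝ) / 20) * L n := mul_le_mul_of_nonneg_right h3q hL
        _ ≤ 2 ^ (-(n : ℝ) / 20) * (Nat.card (Quotient (isoSetoid n)) * n.factorial) :=
            mul_le_mul_of_nonneg_left h2 (Real.rpow_nonneg (by norm_num) _)
        _ = _ := by ring
    exact le_of_mul_le_mul_right h4 hfac

end Pool.Agent.Lib.MP_1ad8b2_co.H59
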