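import Pool.Agent.Lib.MP_1ad8b2_co.H59.Final

/-!
MP_1ad8b2_co: almost every poset is determined by two of its cards.
-/

set_option autoImplicit false

namespace Pool.Agent.Lib.MP_1ad8b2_co.H59

open Finset

/-- `P` is determined by two of its cards. -/
def SomeTwo {α : Type} (P : PartialOrder α) : Prop :=
  ∃ x y : α, x ≠ y ∧ ∀ (β : Type) (Q : PartialOrder β) (u v : β), u ≠ v →
    Nonempty (Subrel P.le (· ≠ x) ≃r Subrel Q.le (· ≠ u)) →
    Nonempty (Subrel P.le (· ≠ y) ≃r Subrel Q.le (· ≠ v)) → Nonempty (P.le ≃r Q.le)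

/-- strict down-sets are nested -/
def Nested {α : Type} (P : PartialOrder α) : Prop :=
  ∀ x y, (∀ z, P.lt z x → P.lt z y) ∨ (∀ z, P.lt z y → P.lt z x)

theorem someTwo_of_rig {α : Type} [Finite α] {P : PartialOrder α} (hP : Rig 2 P)
    (hN : ¬ Nested P) : SomeTwo P := by
  classical
  unfold Nested at hN
  push Not at hN
  obtain ⟨x, y, ⟨z, hzx, hzy⟩, z', hzy', hzx'⟩ := hN
  have hlt : ∀ a b, P.lt a b ↔ P.le a b ∧ ¬ P.le b a := fun a b => P.lt_iff_le_not_ge a b
  have hxy : x ≠ y := by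
    rintro rfl
    exact hzy hzx
  have hnxy : ¬ P.le x y := by
    intro h
    apply hzy
    rw [hlt] at hzx ⊢
    refine ⟨P.le_trans _ _ _ hzx.1 h, fun h' => hzx.2 (P.le_trans _ _ _ h h')⟩
  have hnyx : ¬ P.le y x := by
    intro h
    apply hzx'
    rw [hlt] at hzy' ⊢
    refine ⟨P.le_trans _ _ _ hzy'.1 h, fun h' => hzy'.2 (P.le_trans _ _ _ h h')⟩
  have hzx1 : P.le z x := ((hlt _ _).1 hzx).1
  have hzy1 : P.le z' y := ((hlt _ _).1 hzy').1
  have hz1 : z ≠ x := by
    rintro rfl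
    exact ((hlt _ _).1 hzx).2 (P.le_refl _)
  have hz2 : z ≠ y := by
    rintro rfl
    exact hnyx hzx1
  have hz1' : z' ≠ y := by
    rintro rfl
    exact ((hlt _ _).1 hzy').2 (P.le_refl _)
  have hz2' : z' ≠ x := by
    rintro rfl
    exact hnxy hzy1
  have hzny : ¬ P.le z y := by
    intro h
    apply hzy
    rw [hlt]
    refine ⟨h, fun h' => hz2 (P.le_antisymm _ _ h h')⟩
  have hznx : ¬ P.le z' x := by
    intro h
    apply hzx'
    rw [hlt]
    refine ⟨h, fun h' => hz2' (P.le_antisymm _ _ h h')⟩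
  refine ⟨x, y, hxy, ?_⟩
  rintro β Q u v huv ⟨e1⟩ ⟨e2⟩
  let H : α → β → Prop := fun t w => ∃ ht : t ≠ x, (e1 ⟨t, ht⟩).1 = w
  let H' : α → β → Prop := fun t w => ∃ ht : t ≠ y, (e2 ⟨t, ht⟩).1 = w
  have hord : ∀ t t' w w', H t w → H t' w' → (P.le t t' ↔ Q.le w w') := by
    rintro t t' w w' ⟨ht, rfl⟩ ⟨ht', rfl⟩
    exact (e1.map_rel_iff (a := ⟨t, ht⟩) (b := ⟨t', ht'⟩)).symm
  have hord' : ∀ t t' w w', H' t w → H' t' w' → (P.le t t' ↔ Q.le w w') := by
    rintro t t' w w' ⟨ht, rfl⟩ ⟨ht', rfl⟩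
    exact (e2.map_rel_iff (a := ⟨t, ht⟩) (b := ⟨t', ht'⟩)).symm
  have hex : ∀ w, w ≠ u → ∃ t, H t w := by
    intro w hw
    refine ⟨(e1.symm ⟨w, hw⟩).1, (e1.symm ⟨w, hw⟩).2, ?_⟩
    have : (⟨(e1.symm ⟨w, hw⟩).1, (e1.symm ⟨w, hw⟩).2⟩ : {t // t ≠ x}) = e1.symm ⟨w, hw⟩ := rfl
    rw [this]
    simp
  have hex' : ∀ w, w ≠ v → ∃ t, H' t w := by
    intro w hw
    refine ⟨(e2.symm ⟨w, hw⟩).1, (e2.symm ⟨w, hw⟩).2, ?_⟩
    have : (⟨(e2.symm ⟨w, hw⟩).1, (e2.symm ⟨w, hw⟩).2⟩ : {t // t ≠ y}) = e2.symm ⟨w, hw⟩ := rfl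
    rw [this]
    simp
  have hinj : ∀ t t' w, H t w → H t' w → t = t' := by
    intro t t' w h h'
    exact P.le_antisymm _ _ ((hord _ _ _ _ h h').2 (Q.le_refl _))
      ((hord _ _ _ _ h' h).2 (Q.le_refl _))
  have hinj' : ∀ t t' w, H' t w → H' t' w → t = t' := by
    intro t t' w h h'
    exact P.le_antisymm _ _ ((hord' _ _ _ _ h h').2 (Q.le_refl _))
      ((hord' _ _ _ _ h' h).2 (Q.le_refl _))
  have hkey : ∀ t t' w, H t w → H' t' w → t' = t := by
    refine comp_rig hP H H' hord hord' ?_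
    obtain ⟨t0, ht0⟩ := hex v huv.symm
    have hsub : {t | ¬ ∃ t' w, H t w ∧ H' t' w} ⊆ (({x, t0} : Finset α) : Set α) := by
      intro t ht
      simp only [Set.mem_setOf_eq, not_exists, not_and] at ht
      by_contra hcon
      simp only [coe_insert, coe_singleton, Set.mem_insert_iff, Set.mem_singleton_iff, not_or] at hcon
      have hw : H t (e1 ⟨t, hcon.1⟩).1 := ⟨hcon.1, rfl⟩
      have hwv : (e1 ⟨t, hcon.1⟩).1 ≠ v := by
        intro h
        rw [h] at hw
        exact hcon.2 (hinj _ _ _ hw ht0)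
      obtain ⟨t', ht'⟩ := hex' _ hwv
      exact ht t' _ hw ht'
    have h1 := Nat.card_mono (Finset.finite_toSet _) hsub
    refine le_trans h1 ?_
    rw [Nat.card_eq_card_toFinset]
    simp only [toFinset_coe]
    exact card_le_two
  -- agreement
  have hagree : ∀ t w, H t w → w ≠ v → H' t w := by
    intro t w h hw
    obtain ⟨t', ht'⟩ := hex' w hw
    rw [← hkey t t' w h ht']
    exact ht'
  have hyv : H y v := by
    by_cases h : (e1 ⟨y, hxy.symm⟩).1 = v
    · exact ⟨hxy.symm, h⟩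
    · exact absurd rfl (hagree y _ ⟨hxy.symm, rfl⟩ h).1
  have hagree' : ∀ t w, H' t w → w ≠ u → H t w := by
    intro t w h hw
    obtain ⟨t', ht'⟩ := hex w hw
    rw [hkey t' t w ht' h]
    exact ht'
  have hxu : H' x u := by
    by_cases h : (e2 ⟨x, hxy⟩).1 = u
    · exact ⟨hxy, h⟩
    · exact absurd rfl (hagree' x _ ⟨hxy, rfl⟩ h).1
  -- the isomorphism
  let F : α → β := fun t => if ht : t ≠ x then (e1 ⟨t, ht⟩).1 else u
  have hF1 : ∀ t, t ≠ x → H t (F t) := by
    intro t ht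
    refine ⟨ht, ?_⟩
    simp only [F]
    rw [dif_pos ht]
  have hFx : F x = u := by simp [F]
  have hF2 : ∀ t, t ≠ y → H' t (F t) := by
    intro t ht
    by_cases hx : t = x
    · rw [hx, hFx]; exact hxu
    · refine hagree t _ (hF1 t hx) ?_
      intro h
      have := hF1 t hx
      rw [h] at this
      exact ht (hinj _ _ _ this hyv)
  have hFy : F y = v := by
    have h1 := hF1 y hxy.symm
    have h2 := hord _ _ _ _ h1 hyv
    have h3 := hord _ _ _ _ hyv h1
    exact Q.le_antisymm _ _ (h2.1 (P.le_refl _)) (h3.1 (P.le_refl _))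
  have hQuv : ¬ Q.le u v := by
    intro h
    have h1 : Q.le (F z) u := by
      rw [← hFx]
      exact (hord' _ _ _ _ (hF2 z hz2) (hF2 x hxy)).1 hzx1
    have h2 : ¬ Q.le (F z) v := by
      rw [← hFy]
      intro h'
      exact hzny ((hord _ _ _ _ (hF1 z hz1) (hF1 y hxy.symm)).2 h')
    exact h2 (Q.le_trans _ _ _ h1 h)
  have hQvu : ¬ Q.le v u := by
    intro h
    have h1 : Q.le (F z') v := by
      rw [← hFy]
      exact (hord _ _ _ _ (hF1 z' hz2') (hF1 y hxy.symm)).1 hzy1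
    have h2 : ¬ Q.le (F z') u := by
      rw [← hFx]
      intro h'
      exact hznx ((hord' _ _ _ _ (hF2 z' hz1') (hF2 x hxy)).2 h')
    exact h2 (Q.le_trans _ _ _ h1 h)
  have hFord : ∀ t t', P.le t t' ↔ Q.le (F t) (F t') := by
    intro t t'
    by_cases h1 : t ≠ x ∧ t' ≠ x
    · exact hord _ _ _ _ (hF1 t h1.1) (hF1 t' h1.2)
    · by_cases h2 : t ≠ y ∧ t' ≠ y
      · exact hord' _ _ _ _ (hF2 t h2.1) (hF2 t' h2.2)
      · rw [not_and_or, not_not, not_not] at h1 h2
        rcases h1 with h1 | h1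
        · rcases h2 with h2 | h2
          · exact absurd (h1.symm.trans h2) hxy
          · rw [h1, h2, hFx, hFy]
            exact ⟨fun h => absurd h hnxy, fun h => absurd h hQuv⟩
        · rcases h2 with h2 | h2
          · rw [h1, h2, hFx, hFy]
            exact ⟨fun h => absurd h hnyx, fun h => absurd h hQvu⟩
          · exact absurd (h1.symm.trans h2) hxy
  have hFinj : Function.Injective F := by
    intro a b h
    refine P.le_antisymm _ _ ((hFord a b).2 ?_) ((hFord b a).2 ?_)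
    · rw [h]
    · rw [h]
  have hFsurj : Function.Surjective F := by
    intro w
    by_cases hw : w = u
    · exact ⟨x, by rw [hw, hFx]⟩
    · obtain ⟨t, ht⟩ := hex w hw
      obtain ⟨ht1, rfl⟩ := ht
      exact ⟨t, by simp only [F]; rw [dif_pos ht1]⟩
  exact ⟨⟨Equiv.ofBijective F ⟨hFinj, hFsurj⟩, fun {a b} => (hFord a b).symm⟩⟩

/-- few posets have nested down-sets -/
theorem card_nested_le (n : ℕ) :
    Nat.card {P : PartialOrder (Fin n) // Nested P} ≤ (n + 2) ^ (2 * n) := by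
  classical
  let D : PartialOrder (Fin n) → Fin n → Finset (Fin n) := fun P x => univ.filter (fun z => P.lt z x)
  have hD : ∀ P x z, z ∈ D P x ↔ P.lt z x := by
    intro P x z
    simp [D]
  let a : PartialOrder (Fin n) → Fin n → ℕ := fun P x => (D P x).card
  let b : PartialOrder (Fin n) → Fin n → ℕ := fun P z => sInf {k | k = n + 1 ∨ ∃ y, P.lt z y ∧ k = a P y}
  have ha : ∀ P x, a P x < n + 2 := by
    intro P x
    have := card_le_univ (D P x)
    rw [Fintype.card_fin] at this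
    change (D P x).card < n + 2
    omega
  have hb : ∀ P z, b P z < n + 2 := by
    intro P z
    have : b P z ≤ n + 1 := Nat.sInf_le (Or.inl rfl)
    omega
  have hlt : ∀ P : PartialOrder (Fin n), Nested P → ∀ z y, P.lt z y ↔ b P z ≤ a P y := by
    intro P hP z y
    constructor
    · intro h
      exact Nat.sInf_le (Or.inr ⟨y, h, rfl⟩)
    · intro h
      have hmem : b P z ∈ {k | k = n + 1 ∨ ∃ y, P.lt z y ∧ k = a P y} :=
        Nat.sInf_mem ⟨n + 1, Or.inl rfl⟩
      rcases hmem with h1 | ⟨y', hy', hk⟩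
      · have h2 := card_le_univ (D P y)
        rw [Fintype.card_fin] at h2
        rw [h1] at h
        exact absurd (h.trans h2) (by omega)
      · rw [hk] at h
        rcases hP y' y with h3 | h3
        · exact h3 z hy'
        · have hsub : D P y ⊆ D P y' := by
            intro t ht
            rw [hD] at ht ⊢
            exact h3 t ht
          have heq := eq_of_subset_of_card_le hsub h
          have : z ∈ D P y := by
            rw [heq, hD]
            exact hy'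
          rwa [hD] at this
  let code : {P : PartialOrder (Fin n) // Nested P} → (Fin n → Fin (n + 2)) × (Fin n → Fin (n + 2)) :=
    fun P => (fun x => ⟨a P.1 x, ha _ _⟩, fun z => ⟨b P.1 z, hb _ _⟩)
  have hinj : Function.Injective code := by
    intro P Q h
    have h1 : ∀ x, a P.1 x = a Q.1 x := by
      intro x
      have := congrFun (congrArg Prod.fst h) x
      exact congrArg Fin.val this
    have h2 : ∀ x, b P.1 x = b Q.1 x := by
      intro x
      have := congrFun (congrArg Prod.snd h) x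
      exact congrArg Fin.val this
    apply Subtype.ext
    apply PartialOrder.ext
    intro x y
    change P.1.le x y ↔ Q.1.le x y
    have h3 : P.1.lt x y ↔ Q.1.lt x y := by
      rw [hlt P.1 P.2, hlt Q.1 Q.2, h1, h2]
    have e1 : ∀ R : PartialOrder (Fin n), R.le x y ↔ R.lt x y ∨ x = y := by
      intro R
      exact @le_iff_lt_or_eq _ R x y
    exact (e1 P.1).trans ((or_congr_left h3).trans (e1 Q.1).symm)
  refine (Nat.card_le_card_of_injective code hinj).trans ?_
  rw [Nat.card_prod, Nat.card_fun, Nat.card_eq_fintype_card, Nat.card_eq_fintype_card,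
    Fintype.card_fin, Fintype.card_fin, ← pow_add]
  refine le_of_eq ?_
  congr 1
  ring

theorem nested_small {n : ℕ} (hn : 200 ≤ n) :
    ((n + 2 : ℕ) : ℝ) ^ (2 * n) * n.factorial ≤ 2 ^ (-((6 / 100 : ℝ) * n)) * L n := by
  have h1 : n + 2 ≤ 2 ^ ((n + 2) / 25) := le_two_pow (by omega)
  have h2 : (n + 2) ^ (2 * n) * n.factorial ≤ 2 ^ (((n + 2) / 25) * (3 * n)) := by
    calc (n + 2) ^ (2 * n) * n.factorial ≤ (n + 2) ^ (2 * n) * (n + 2) ^ n := by
          refine Nat.mul_le_mul_left _ ((Nat.factorial_le_pow n).trans ?_)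
          exact Nat.pow_le_pow_left (by omega) n
      _ = (n + 2) ^ (3 * n) := by rw [← pow_add]; congr 1; ring
      _ ≤ (2 ^ ((n + 2) / 25)) ^ (3 * n) := Nat.pow_le_pow_left h1 _
      _ = 2 ^ (((n + 2) / 25) * (3 * n)) := by rw [← pow_mul]
  have h3 : ((n + 2 : ℕ) : ℝ) ^ (2 * n) * n.factorial ≤ (2 : ℝ) ^ (((((n + 2) / 25) * (3 * n) : ℕ)) : ℝ) := by
    rw [Real.rpow_natCast]
    exact_mod_cast h2
  have h4 : (2 : ℝ) ^ ((((n / 2) * (n - n / 2) : ℕ)) : ℝ) ≤ L n := by
    rw [Real.rpow_natCast]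
    exact_mod_cast L_ge n
  have h5 : (((((n + 2) / 25) * (3 * n) : ℕ)) : ℝ) ≤ -((6 / 100 : ℝ) * n) + ((((n / 2) * (n - n / 2) : ℕ)) : ℝ) := by
    have e1 : 25 * ((n + 2) / 25) ≤ n + 2 := Nat.mul_div_le _ _
    have e2 : n * n ≤ 4 * ((n / 2) * (n - n / 2)) + 1 := by
      rcases Nat.even_or_odd' n with ⟨j, hj | hj⟩
      · have h7 : n / 2 = j := by omega
        have h8 : n - n / 2 = j := by omega
        rw [h8, h7, hj]
        nlinarith
      · have h7 : n / 2 = j := by omega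
        have h8 : n - n / 2 = j + 1 := by omega
        rw [h8, h7, hj]
        nlinarith
    have e1' : 25 * (((n + 2) / 25 : ℕ) : ℝ) ≤ n + 2 := by exact_mod_cast e1
    have e2' : (n : ℝ) * n ≤ 4 * (((n / 2) * (n - n / 2) : ℕ) : ℝ) + 1 := by exact_mod_cast e2
    have hn' : (200 : ℝ) ≤ n := by exact_mod_cast hn
    generalize ((((n / 2) * (n - n / 2) : ℕ)) : ℝ) = A at e2' ⊢
    rw [Nat.cast_mul, Nat.cast_mul]
    generalize (((n + 2) / 25 : ℕ) : ℝ) = B' at e1' ⊢
    push_cast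
    nlinarith [mul_le_mul_of_nonneg_left e1' (show (0 : ℝ) ≤ n by linarith)]
  calc ((n + 2 : ℕ) : ℝ) ^ (2 * n) * n.factorial ≤ (2 : ℝ) ^ (((((n + 2) / 25) * (3 * n) : ℕ)) : ℝ) := h3
    _ ≤ 2 ^ (-((6 / 100 : ℝ) * n) + ((((n / 2) * (n - n / 2) : ℕ)) : ℝ)) :=
        Real.rpow_le_rpow_of_exponent_le (by norm_num) h5
    _ = 2 ^ (-((6 / 100 : ℝ) * n)) * 2 ^ ((((n / 2) * (n - n / 2) : ℕ)) : ℝ) := by
        rw [Real.rpow_add (by norm_num)]
    _ ≤ _ := mul_le_mul_of_nonneg_left h4 (Real.rpow_nonneg (by norm_num) _)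

end Pool.Agent.Lib.MP_1ad8b2_co.H59
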