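import Pool.Agent.Lib.MP_1ad8b2_co.H59.Ratio

/-!
MP_1ad8b2_co: number of posets with a given partial automorphism.
-/

set_option autoImplicit false

namespace Pool.Agent.Lib.MP_1ad8b2_co.H59

open Finset

/-- `f` (a partial map) is an isomorphism between two induced suborders. -/
def PIso {α : Type} (r : PO α) (f : α → Option α) : Prop :=
  ∀ x y x' y', f x = some x' → f y = some y' → (r.1 x y ↔ r.1 x' y')

/-- `f` is injective where it is defined -/
def PInj {α : Type} (f : α → Option α) : Prop :=
  ∀ x y z, f x = some z → f y = some z → x = y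

theorem PIso.inj {α : Type} {r : PO α} {f : α → Option α} (h : PIso r f) : PInj f := by
  intro x y z hx hy
  exact r.2.2.1 _ _ ((h x y z z hx hy).2 (r.2.1 z)) ((h y x z z hy hx).2 (r.2.1 z))

/-- an independent set of moved points -/
theorem exists_indep {α : Type} [Fintype α] [DecidableEq α] (f : α → Option α) (hf : PInj f)
    (M : Finset α) (hM : ∀ x ∈ M, ∃ y, f x = some y ∧ y ≠ x) :
    ∃ S ⊆ M, (∀ x ∈ S, ∀ y ∈ S, f x ≠ some y) ∧ M.card ≤ 3 * S.card := by
  classical
  let F := M.powerset.filter (fun S => ∀ x ∈ S, ∀ y ∈ S, f x ≠ some y)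
  have hF : F.Nonempty := ⟨∅, by simp [F]⟩
  obtain ⟨S, hS, hmax⟩ := F.exists_max_image card hF
  simp only [F, mem_filter, mem_powerset] at hS
  refine ⟨S, hS.1, hS.2, ?_⟩
  -- preimages and images of S
  let S1 := M.filter (fun x => ∃ y ∈ S, f x = some y)
  let S2 := M.filter (fun x => ∃ y ∈ S, f y = some x)
  have hS1 : S1.card ≤ S.card := by
    have : ∀ x : α, ∃ y : α, x ∈ S1 → y ∈ S ∧ f x = some y := by
      intro x
      by_cases hx : x ∈ S1
      · obtain ⟨y, hy, hxy⟩ := (mem_filter.1 hx).2
        exact ⟨y, fun _ => ⟨hy, hxy⟩⟩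
      · exact ⟨x, fun h => absurd h hx⟩
    choose g hg using this
    refine card_le_card_of_injOn g (fun x hx => (hg x hx).1) ?_
    intro x hx y hy hxy
    have h1 := (hg x hx).2
    have h2 := (hg y hy).2
    rw [← hxy] at h2
    exact hf _ _ _ h1 h2
  have hS2 : S2.card ≤ S.card := by
    have : ∀ x : α, ∃ y : α, x ∈ S2 → y ∈ S ∧ f y = some x := by
      intro x
      by_cases hx : x ∈ S2
      · obtain ⟨y, hy, hxy⟩ := (mem_filter.1 hx).2
        exact ⟨y, fun _ => ⟨hy, hxy⟩⟩
      · exact ⟨x, fun h => absurd h hx⟩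
    choose g hg using this
    refine card_le_card_of_injOn g (fun x hx => (hg x hx).1) ?_
    intro x hx y hy hxy
    have h1 := (hg x hx).2
    have h2 := (hg y hy).2
    rw [← hxy, h1] at h2
    exact Option.some_injective _ h2
  have hcov : M ⊆ S ∪ (S1 ∪ S2) := by
    intro x hx
    by_contra hcon
    simp only [mem_union, not_or] at hcon
    obtain ⟨hxS, hx1, hx2⟩ := hcon
    have hx1' : ∀ y ∈ S, f x ≠ some y := by
      intro y hy hxy
      exact hx1 (mem_filter.2 ⟨hx, y, hy, hxy⟩)
    have hx2' : ∀ y ∈ S, f y ≠ some x := by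
      intro y hy hxy
      exact hx2 (mem_filter.2 ⟨hx, y, hy, hxy⟩)
    have hin : insert x S ∈ F := by
      simp only [F, mem_filter, mem_powerset]
      refine ⟨insert_subset hx hS.1, ?_⟩
      intro a ha b hb
      rcases mem_insert.1 ha with ha1 | ha1
      · rcases mem_insert.1 hb with hb1 | hb1
        · rw [ha1, hb1]
          obtain ⟨y, hy, hne⟩ := hM _ hx
          rw [hy]
          intro h
          exact hne (Option.some_injective _ h)
        · rw [ha1]
          exact hx1' b hb1
      · rcases mem_insert.1 hb with hb1 | hb1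
        · rw [hb1]
          exact hx2' a ha1
        · exact hS.2 a ha1 b hb1
    have := hmax _ hin
    rw [card_insert_of_notMem hxS] at this
    omega
  calc M.card ≤ (S ∪ (S1 ∪ S2)).card := card_le_card hcov
    _ ≤ S.card + (S1.card + S2.card) :=
        (card_union_le _ _).trans (Nat.add_le_add_left (card_union_le _ _) _)
    _ ≤ 3 * S.card := by omega

/-- the main count -/
theorem card_PIso_le {α : Type} [Fintype α] [DecidableEq α] (f : α → Option α) (hf : PInj f)
    (K : ℕ) (hK : ((univ : Finset α).filter (fun x => f x = none)).card ≤ K)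
    (S : Finset α) (hS0 : ∀ x ∈ S, ∃ y, f x = some y) (hS : ∀ x ∈ S, ∀ y ∈ S, f x ≠ some y) :
    Nat.card {r : PO α // PIso r f} ≤
      L (Fintype.card α - S.card) * 4 ^ (S.card * (S.card + K)) := by
  classical
  have hg : ∀ x : α, ∃ y : α, x ∈ S → f x = some y := by
    intro x
    by_cases hx : x ∈ S
    · obtain ⟨y, hy⟩ := hS0 x hx
      exact ⟨y, fun _ => hy⟩
    · exact ⟨x, fun h => absurd h hx⟩
  choose g hg using hg
  let T := S.image g
  have hT : T.card = S.card := by
    refine card_image_of_injOn ?_
    intro x hx y hy hxy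
    have h1 := hg x hx
    have h2 := hg y hy
    rw [← hxy] at h2
    exact hf _ _ _ h1 h2
  have hST : ∀ x ∈ S, x ∉ T := by
    intro x hx hxT
    obtain ⟨y, hy, hyx⟩ := mem_image.1 hxT
    have := hg y hy
    rw [hyx] at this
    exact hS y hy x hx this
  let U := (univ : Finset α).filter (fun z => ∀ y, f y = some z → y ∈ T)
  have hU : U.card ≤ S.card + K := by
    -- the complement of U contains the image of the complement of T in the domain
    let D := (univ : Finset α).filter (fun y => f y ≠ none ∧ y ∉ T)
    have hD : (univ : Finset α).card ≤ D.card + (K + S.card) := by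
      have h1 : (univ : Finset α) ⊆ D ∪ ((univ : Finset α).filter (fun x => f x = none) ∪ T) := by
        intro x _
        by_cases h : f x = none
        · exact mem_union_right _ (mem_union_left _ (by simp [h]))
        · by_cases h' : x ∈ T
          · exact mem_union_right _ (mem_union_right _ h')
          · exact mem_union_left _ (by simp [D, h, h'])
      refine (card_le_card h1).trans ((card_union_le _ _).trans ?_)
      refine Nat.add_le_add_left ((card_union_le _ _).trans ?_) _
      rw [hT]
      omega
    have hDU : D.card ≤ Uᶜ.card := by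
      have : ∀ x : α, ∃ y : α, x ∈ D → f x = some y := by
        intro x
        by_cases hx : x ∈ D
        · obtain ⟨y, hy⟩ := Option.ne_none_iff_exists'.1 (mem_filter.1 hx).2.1
          exact ⟨y, fun _ => hy⟩
        · exact ⟨x, fun h => absurd h hx⟩
      choose g' hg' using this
      refine card_le_card_of_injOn g' ?_ ?_
      · intro x hx
        simp only [U, coe_compl, coe_filter, mem_univ, true_and, Set.mem_compl_iff,
          Set.mem_setOf_eq, not_forall]
        exact ⟨x, hg' x hx, (mem_filter.1 hx).2.2⟩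
      · intro x hx y hy hxy
        have h1 := hg' x hx
        have h2 := hg' y hy
        rw [← hxy] at h2
        exact hf _ _ _ h1 h2
    have hUc := card_compl_add_card U
    rw [← card_univ] at hUc
    omega
  -- the code
  let code : {r : PO α // PIso r f} → PO {a // a ∉ T} × (T → U → Prop × Prop) := fun r =>
    (r.1.res (fun a => a ∉ T), fun t u => (r.1.1 t.1 u.1, r.1.1 u.1 t.1))
  have hinj : Function.Injective code := by
    intro r s h
    have h1 : ∀ a b, a ∉ T → b ∉ T → (r.1.1 a b ↔ s.1.1 a b) := by
      intro a b ha hb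
      have h2 := congrArg Prod.fst h
      have h3 := congrArg Subtype.val h2
      have h4 := congrFun (congrFun h3 ⟨a, ha⟩) ⟨b, hb⟩
      exact iff_of_eq h4
    have h2 : ∀ t u, t ∈ T → u ∈ U → (r.1.1 t u ↔ s.1.1 t u) ∧ (r.1.1 u t ↔ s.1.1 u t) := by
      intro t u ht hu
      have h2 := congrArg Prod.snd h
      have h4 := congrFun (congrFun h2 ⟨t, ht⟩) ⟨u, hu⟩
      exact ⟨iff_of_eq (congrArg Prod.fst h4), iff_of_eq (congrArg Prod.snd h4)⟩
    have h3 : ∀ t u, t ∈ T → (r.1.1 t u ↔ s.1.1 t u) ∧ (r.1.1 u t ↔ s.1.1 u t) := by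
      intro t u ht
      by_cases hu : u ∈ U
      · exact h2 t u ht hu
      · obtain ⟨x, hx, hxt⟩ := mem_image.1 ht
        have hfx := hg x hx
        rw [hxt] at hfx
        simp only [U, mem_filter, mem_univ, true_and, not_forall] at hu
        obtain ⟨y, hy, hyT⟩ := hu
        have e1 := r.2 x y t u hfx hy
        have e2 := s.2 x y t u hfx hy
        have e3 := r.2 y x u t hy hfx
        have e4 := s.2 y x u t hy hfx
        have e5 := h1 x y (hST x hx) hyT
        have e6 := h1 y x hyT (hST x hx)
        exact ⟨e1.symm.trans (e5.trans e2), e3.symm.trans (e6.trans e4)⟩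
    apply Subtype.ext
    apply PO.ext'
    intro a b
    by_cases ha : a ∈ T
    · exact (h3 a b ha).1
    · by_cases hb : b ∈ T
      · exact (h3 b a hb).2
      · exact h1 a b ha hb
  refine (Nat.card_le_card_of_injective code hinj).trans ?_
  rw [Nat.card_prod, card_PO]
  have e1 : Fintype.card {a // a ∉ T} = Fintype.card α - S.card := by
    rw [← hT]
    have := Fintype.card_subtype_compl (fun a => a ∈ T)
    rw [Fintype.card_coe] at this
    exact this
  have e2 : Nat.card (T → U → Prop × Prop) = 4 ^ (U.card * T.card) := by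
    rw [Nat.card_fun, Nat.card_fun, Nat.card_eq_fintype_card, Nat.card_eq_fintype_card,
      Nat.card_eq_fintype_card, Fintype.card_coe, Fintype.card_coe, Fintype.card_prod,
      Fintype.card_prop, ← pow_mul]
  rw [e1, e2]
  refine Nat.mul_le_mul_left _ (Nat.pow_le_pow_right (by norm_num) ?_)
  rw [hT, mul_comm]
  exact Nat.mul_le_mul_left _ hU

end Pool.Agent.Lib.MP_1ad8b2_co.H59
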