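import Pool.Agent.Lib.MP_1ad8b2_co.H59.Basic

/-!
MP_1ad8b2_co: growth of the number of labelled posets.
-/

set_option autoImplicit false

namespace Pool.Agent.Lib.MP_1ad8b2_co.H59

open Finset

theorem aux_pow : ∀ q, 8 ≤ q → 25 * (q + 1) ≤ 2 ^ q := by
  intro q hq
  induction q, hq using Nat.le_induction with
  | base => norm_num
  | succ q _ ih => rw [pow_succ]; omega

theorem le_two_pow {m : ℕ} (hm : 200 ≤ m) : m ≤ 2 ^ (m / 25) := by
  have h1 : 8 ≤ m / 25 := by omega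
  have h2 := aux_pow _ h1
  omega

theorem two_B_le {m : ℕ} (hm : 200 ≤ m) : 2 * B m (2 ^ (m / 5)) ≤ L m := by
  have h1 := B_le (2 ^ (m / 5)) m
  have h2 : m.factorial ≤ m ^ m := Nat.factorial_le_pow m
  have h3 : m ^ m ≤ 2 ^ ((m / 25) * m) := by
    rw [pow_mul]
    exact Nat.pow_le_pow_left (le_two_pow hm) m
  have h4 := L_ge m
  refine le_trans ?_ h4
  have h5 : 2 * B m (2 ^ (m / 5)) ≤ 2 ^ (1 + (m / 25) * m + (m / 5) * m) := by
    calc 2 * B m (2 ^ (m / 5)) ≤ 2 * (m.factorial * (2 ^ (m / 5)) ^ m) := Nat.mul_le_mul_left _ h1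
      _ ≤ 2 * (2 ^ ((m / 25) * m) * (2 ^ (m / 5)) ^ m) :=
          Nat.mul_le_mul_left _ (Nat.mul_le_mul_right _ (h2.trans h3))
      _ = 2 ^ (1 + (m / 25) * m + (m / 5) * m) := by
          rw [← pow_mul, pow_add, pow_add, pow_one]; ring
  refine h5.trans (Nat.pow_le_pow_right (by norm_num) ?_)
  have h6 : m / 25 * 25 ≤ m := Nat.div_mul_le_self _ _
  have h7 : m / 5 * 5 ≤ m := Nat.div_mul_le_self _ _
  have h8 : 2 * (m / 2) ≤ m := by omega
  have h9 : m ≤ 2 * (m / 2) + 1 := by omega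
  have h10 : 4 * ((m / 2) * (m - m / 2)) + 1 ≥ m * m := by
    obtain ⟨k, hk⟩ : ∃ k, k = m / 2 := ⟨_, rfl⟩
    rw [← hk] at h8 h9 ⊢
    rcases Nat.even_or_odd' m with ⟨j, hj | hj⟩
    · have : k = j := by omega
      subst this
      have h11 : m - k = k := by omega
      rw [h11, hj]
      nlinarith
    · have : k = j := by omega
      subst this
      have h11 : m - k = k + 1 := by omega
      rw [h11, hj]
      nlinarith
  have h11 : 25 * (m / 25 * m) ≤ m * m := by nlinarith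
  have h12 : 5 * (m / 5 * m) ≤ m * m := by nlinarith
  have h13 : 200 * 200 ≤ m * m := Nat.mul_le_mul hm hm
  omega

theorem L_growth {m : ℕ} (hm : 200 ≤ m) : L m * 2 ^ (m / 5) ≤ 2 * L (m + 1) := by
  have h1 := L_succ_ge m (2 ^ (m / 5))
  have h2 := two_B_le hm
  calc L m * 2 ^ (m / 5) ≤ (2 * (L m - B m (2 ^ (m / 5)))) * 2 ^ (m / 5) :=
        Nat.mul_le_mul_right _ (by omega)
    _ = 2 * ((L m - B m (2 ^ (m / 5))) * 2 ^ (m / 5)) := by ring
    _ ≤ 2 * L (m + 1) := Nat.mul_le_mul_left _ h1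

theorem L_ratio (n : ℕ) : ∀ s, 200 + s ≤ n → L (n - s) * 2 ^ (s * ((n - s) / 5)) ≤ 2 ^ s * L n
  | 0, _ => by simp
  | s + 1, h => by
    have ih := L_ratio n s (by omega)
    have h1 : L (n - (s + 1)) * 2 ^ ((n - (s + 1)) / 5) ≤ 2 * L (n - s) := by
      have := L_growth (m := n - (s + 1)) (by omega)
      have e : n - (s + 1) + 1 = n - s := by omega
      rwa [e] at this
    have h2 : (n - (s + 1)) / 5 ≤ (n - s) / 5 := Nat.div_le_div_right (by omega)
    calc L (n - (s + 1)) * 2 ^ ((s + 1) * ((n - (s + 1)) / 5))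
        = (L (n - (s + 1)) * 2 ^ ((n - (s + 1)) / 5)) * 2 ^ (s * ((n - (s + 1)) / 5)) := by
          rw [add_mul, one_mul, pow_add]; ring
      _ ≤ (2 * L (n - s)) * 2 ^ (s * ((n - s) / 5)) :=
          Nat.mul_le_mul h1 (Nat.pow_le_pow_right (by norm_num) (Nat.mul_le_mul_left _ h2))
      _ = 2 * (L (n - s) * 2 ^ (s * ((n - s) / 5))) := by ring
      _ ≤ 2 * (2 ^ s * L n) := Nat.mul_le_mul_left _ ih
      _ = 2 ^ (s + 1) * L n := by rw [pow_succ]; ring

end Pool.Agent.Lib.MP_1ad8b2_co.H59
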