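import Pool.Agent.Lib.MP_1ad8b2_co.H59.PIso

/-!
MP_1ad8b2_co: the union bound over all partial automorphisms.
-/

set_option autoImplicit false

namespace Pool.Agent.Lib.MP_1ad8b2_co.H59

open Finset

/-- moved points -/
def moved {α : Type} [Fintype α] [DecidableEq α] (f : α → Option α) : Finset α :=
  univ.filter (fun x => f x ≠ none ∧ f x ≠ some x)

theorem exps {n s K : ℕ} (hn : 1500 ≤ n) (hK : 100 * K ≤ n) (hs : 300 * s ≤ n + 300) :
    (s : ℝ) + 2 * (s * (s + K)) - s * (((n - s) / 5 : ℕ) : ℝ) ≤ -((17 / 100) * n * s) := by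
  have h1 : (n - s) < 5 * ((n - s) / 5) + 5 := by omega
  have hsn : s ≤ n := by omega
  have h2 : ((n - s : ℕ) : ℝ) + 1 ≤ 5 * (((n - s) / 5 : ℕ) : ℝ) + 5 := by exact_mod_cast h1
  rw [Nat.cast_sub hsn] at h2
  have hn' : (1500 : ℝ) ≤ n := by exact_mod_cast hn
  have hK' : 100 * (K : ℝ) ≤ n := by exact_mod_cast hK
  have hs' : 300 * (s : ℝ) ≤ n + 300 := by exact_mod_cast hs
  have hs0 : (0 : ℝ) ≤ s := Nat.cast_nonneg _
  have key : 1 + 2 * ((s : ℝ) + K) - (((n - s) / 5 : ℕ) : ℝ) + (17 / 100) * n ≤ 0 := by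
    nlinarith
  nlinarith [mul_nonpos_of_nonneg_of_nonpos hs0 key]

theorem count_le {n K : ℕ} (hn : 1500 ≤ n) (hK : 100 * K ≤ n) (f : Fin n → Option (Fin n))
    (hf : PInj f) (hf0 : ((univ : Finset (Fin n)).filter (fun x => f x = none)).card ≤ K)
    (hm : 0 < (moved f).card) :
    (Nat.card {r : PO (Fin n) // PIso r f} : ℝ) ≤
      L n * 2 ^ (-((15 / 100 : ℝ) * n)) * (2 ^ (-((n : ℝ) / 20000))) ^ (moved f).card := by
  classical
  obtain ⟨S, hSM, hS, hcard⟩ := exists_indep f hf (moved f) (by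
    intro x hx
    obtain ⟨y, hy⟩ := Option.ne_none_iff_exists'.1 (mem_filter.1 hx).2.1
    refine ⟨y, hy, ?_⟩
    rintro rfl
    exact (mem_filter.1 hx).2.2 hy)
  set m := (moved f).card with hmdef
  obtain ⟨S', hS'S, hS'card⟩ := exists_subset_card_eq (s := S) (n := (m + 299) / 300) (by omega)
  set s := (m + 299) / 300 with hs
  have hmn : m ≤ n := by
    have := card_le_univ (moved f)
    simpa using this
  have h1 := card_PIso_le f hf K hf0 S' (fun x hx => by
    obtain ⟨y, hy⟩ := Option.ne_none_iff_exists'.1 (mem_filter.1 (hSM (hS'S hx))).2.1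
    exact ⟨y, hy⟩) (fun x hx y hy => hS x (hS'S hx) y (hS'S hy))
  rw [hS'card, Fintype.card_fin] at h1
  have h2 := L_ratio n s (by omega)
  have h1' : (Nat.card {r : PO (Fin n) // PIso r f} : ℝ) ≤
      (L (n - s) : ℝ) * (2 : ℝ) ^ ((2 * (s * (s + K)) : ℝ)) := by
    have e : (2 : ℝ) ^ ((2 * (s * (s + K)) : ℝ)) = ((4 ^ (s * (s + K)) : ℕ) : ℝ) := by
      push_cast
      rw [Real.rpow_mul (by norm_num)]
      rw [show ((s : ℝ) * (s + K)) = ((s * (s + K) : ℕ) : ℝ) by push_cast; ring]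
      rw [Real.rpow_natCast]
      norm_num
    rw [e]
    exact_mod_cast h1
  have h2' : (L (n - s) : ℝ) * (2 : ℝ) ^ ((s * (((n - s) / 5 : ℕ) : ℝ) : ℝ)) ≤ (2 : ℝ) ^ (s : ℝ) * L n := by
    have e : (2 : ℝ) ^ ((s * (((n - s) / 5 : ℕ) : ℝ) : ℝ)) = ((2 ^ (s * ((n - s) / 5)) : ℕ) : ℝ) := by
      push_cast
      rw [show ((s : ℝ) * (((n - s) / 5 : ℕ) : ℝ)) = ((s * ((n - s) / 5) : ℕ) : ℝ) by push_cast; ring]
      rw [Real.rpow_natCast]
    rw [e, Real.rpow_natCast]
    exact_mod_cast h2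
  have h3 : (L (n - s) : ℝ) ≤ (2 : ℝ) ^ ((s : ℝ) - s * (((n - s) / 5 : ℕ) : ℝ)) * L n := by
    have hpos : (0 : ℝ) < (2 : ℝ) ^ ((s * (((n - s) / 5 : ℕ) : ℝ) : ℝ)) := Real.rpow_pos_of_pos (by norm_num) _
    rw [Real.rpow_sub (by norm_num), div_mul_eq_mul_div, le_div_iff₀ hpos]
    exact h2'
  have h4 : (Nat.card {r : PO (Fin n) // PIso r f} : ℝ) ≤
      (2 : ℝ) ^ ((s : ℝ) + 2 * (s * (s + K)) - s * (((n - s) / 5 : ℕ) : ℝ)) * L n := by
    refine h1'.trans ?_
    refine (mul_le_mul_of_nonneg_right h3 (Real.rpow_nonneg (by norm_num) _)).trans (le_of_eq ?_)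
    rw [mul_right_comm, ← Real.rpow_add (by norm_num)]
    congr 2
    ring
  have h5 := exps hn hK (s := s) (by omega)
  have hL : (0 : ℝ) ≤ L n := Nat.cast_nonneg _
  refine h4.trans ?_
  rw [← Real.rpow_natCast, ← Real.rpow_mul (by norm_num), mul_assoc, ← Real.rpow_add (by norm_num),
    mul_comm (L n : ℝ)]
  refine mul_le_mul_of_nonneg_right ?_ hL
  refine Real.rpow_le_rpow_of_exponent_le (by norm_num) (h5.trans ?_)
  have hs1 : (1 : ℝ) ≤ s := by
    have : 1 ≤ s := by omega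
    exact_mod_cast this
  have hs2 : (m : ℝ) ≤ 300 * s := by
    have : m ≤ 300 * s := by omega
    exact_mod_cast this
  have hn0 : (0 : ℝ) ≤ n := Nat.cast_nonneg _
  nlinarith [mul_le_mul_of_nonneg_left hs1 hn0, mul_le_mul_of_nonneg_left hs2 hn0]

/-- weights -/
noncomputable def wt {n : ℕ} (x : Fin n) (o : Option (Fin n)) : ℝ :=
  if o = none then 1 / 128 else if o = some x then 1 else 2 ^ (-((n : ℝ) / 20000))

theorem sum_wt {n : ℕ} (x : Fin n) :
    ∑ o : Option (Fin n), wt x o = 1 / 128 + 1 + ((n : ℝ) - 1) * 2 ^ (-((n : ℝ) / 20000)) := by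
  rw [Fintype.sum_option]
  have h1 : wt x none = 1 / 128 := by simp [wt]
  rw [h1, ← add_sum_erase univ _ (mem_univ x)]
  have h2 : wt x (some x) = 1 := by simp [wt]
  rw [h2]
  have h3 : ∑ y ∈ univ.erase x, wt x (some y) =
      ∑ y ∈ univ.erase x, (2 : ℝ) ^ (-((n : ℝ) / 20000)) := by
    refine sum_congr rfl fun y hy => ?_
    have : y ≠ x := (mem_erase.1 hy).1
    simp [wt, this]
  rw [h3, sum_const, card_erase_of_mem (mem_univ x), card_univ, Fintype.card_fin, nsmul_eq_mul]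
  have hn : 1 ≤ n := by
    have := x.2
    omega
  rw [Nat.cast_sub hn]
  push_cast
  ring

theorem prod_wt {n : ℕ} (f : Fin n → Option (Fin n)) :
    ∏ x, wt x (f x) = (1 / 128) ^ ((univ : Finset (Fin n)).filter (fun x => f x = none)).card *
      (2 ^ (-((n : ℝ) / 20000))) ^ (moved f).card := by
  classical
  have h1 : ∀ x, wt x (f x) = (if f x = none then (1 / 128 : ℝ) else 1) *
      (if f x ≠ none ∧ f x ≠ some x then (2 : ℝ) ^ (-((n : ℝ) / 20000)) else 1) := by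
    intro x
    unfold wt
    by_cases h : f x = none
    · simp [h]
    · by_cases h' : f x = some x
      · simp [h']
      · simp [h, h']
  rw [prod_congr rfl fun x _ => h1 x, prod_mul_distrib, prod_ite, prod_ite]
  simp [moved]

/-- the nontrivial partial maps defined at all but `K` points -/
noncomputable def FF (n K : ℕ) : Finset (Fin n → Option (Fin n)) := by
  classical
  exact univ.filter (fun f => PInj f ∧
    ((univ : Finset (Fin n)).filter (fun x => f x = none)).card ≤ K ∧ 0 < (moved f).card)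

theorem mem_FF {n K : ℕ} {f : Fin n → Option (Fin n)} : f ∈ FF n K ↔ PInj f ∧
    ((univ : Finset (Fin n)).filter (fun x => f x = none)).card ≤ K ∧ 0 < (moved f).card := by
  simp [FF]

theorem small_eventually : ∃ n₀ : ℕ, ∀ n : ℕ, n₀ ≤ n →
    ((n : ℝ) - 1) * 2 ^ (-((n : ℝ) / 20000)) ≤ 1 / 1000 := by
  have h1 : Filter.Tendsto (fun n : ℕ => (n : ℝ) ^ 1 * ((2 : ℝ) ^ (-(1 / 20000 : ℝ))) ^ n)
      Filter.atTop (nhds 0) := by
    refine tendsto_pow_const_mul_const_pow_of_abs_lt_one 1 ?_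
    rw [abs_of_pos (Real.rpow_pos_of_pos (by norm_num) _)]
    exact Real.rpow_lt_one_of_one_lt_of_neg (by norm_num) (by norm_num)
  have h2 := h1.eventually (gt_mem_nhds (show (0 : ℝ) < 1 / 1000 by norm_num))
  obtain ⟨n₀, hn₀⟩ := Filter.eventually_atTop.1 h2
  refine ⟨n₀, fun n hn => ?_⟩
  have h3 := hn₀ n hn
  rw [pow_one, ← Real.rpow_natCast, ← Real.rpow_mul (by norm_num)] at h3
  have e : -(1 / 20000 : ℝ) * n = -((n : ℝ) / 20000) := by ring
  rw [e] at h3
  have h4 : (0 : ℝ) < 2 ^ (-((n : ℝ) / 20000)) := Real.rpow_pos_of_pos (by norm_num) _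
  nlinarith

theorem sum_count : ∃ n₀ : ℕ, ∀ n : ℕ, n₀ ≤ n →
    (∑ f ∈ FF n (n / 100), (Nat.card {r : PO (Fin n) // PIso r f} : ℝ)) ≤
      2 ^ (-((6 / 100 : ℝ) * n)) * L n := by
  obtain ⟨n₀, hn₀⟩ := small_eventually
  refine ⟨max n₀ 1500, fun n hn => ?_⟩
  have hn1 : n₀ ≤ n := (le_max_left _ _).trans hn
  have hn2 : 1500 ≤ n := (le_max_right _ _).trans hn
  set w : ℝ := 2 ^ (-((n : ℝ) / 20000)) with hw
  have hw0 : 0 < w := Real.rpow_pos_of_pos (by norm_num) _
  have hK : 100 * (n / 100) ≤ n := Nat.mul_div_le n 100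
  have hL : (0 : ℝ) ≤ L n := Nat.cast_nonneg _
  have h1 : ∀ f ∈ FF n (n / 100), (Nat.card {r : PO (Fin n) // PIso r f} : ℝ) ≤
      L n * 2 ^ (-((15 / 100 : ℝ) * n)) * (128 ^ (n / 100) * ∏ x, wt x (f x)) := by
    intro f hf
    obtain ⟨hf1, hf2, hf3⟩ := mem_FF.1 hf
    refine (count_le hn2 hK f hf1 hf2 hf3).trans ?_
    rw [prod_wt]
    refine mul_le_mul_of_nonneg_left ?_ (mul_nonneg hL (Real.rpow_nonneg (by norm_num) _))
    rw [← mul_assoc]
    refine le_mul_of_one_le_left (pow_nonneg hw0.le _) ?_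
    set z := ((univ : Finset (Fin n)).filter (fun x => f x = none)).card
    have e : ((128 : ℝ) ^ (n / 100)) * (1 / 128) ^ z = 128 ^ (n / 100 - z) := by
      rw [one_div, inv_pow, ← div_eq_mul_inv, div_eq_iff (by positivity), ← pow_add]
      congr 1
      omega
    rw [e]
    exact one_le_pow₀ (by norm_num)
  have h2 : (∑ f ∈ FF n (n / 100), (Nat.card {r : PO (Fin n) // PIso r f} : ℝ)) ≤
      L n * 2 ^ (-((15 / 100 : ℝ) * n)) * (128 ^ (n / 100) * (1 / 128 + 1 + ((n : ℝ) - 1) * w) ^ n) := by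
    refine (sum_le_sum h1).trans ?_
    have hwt : ∀ (x : Fin n) (o : Option (Fin n)), 0 ≤ wt x o := by
      intro x o
      unfold wt
      split_ifs
      · norm_num
      · norm_num
      · exact hw0.le
    refine (sum_le_sum_of_subset_of_nonneg (subset_univ _) (fun f _ _ => ?_)).trans ?_
    · exact mul_nonneg (mul_nonneg hL (Real.rpow_nonneg (by norm_num) _))
        (mul_nonneg (by positivity) (prod_nonneg fun x _ => hwt x _))
    · rw [← mul_sum, ← mul_sum]
      refine mul_le_mul_of_nonneg_left ?_ (mul_nonneg hL (Real.rpow_nonneg (by norm_num) _))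
      refine mul_le_mul_of_nonneg_left (le_of_eq ?_) (by positivity)
      have := Finset.prod_univ_sum (fun _ : Fin n => (univ : Finset (Option (Fin n)))) (fun x o => wt x o)
      rw [Fintype.piFinset_univ] at this
      rw [← this, prod_congr rfl fun x _ => sum_wt x, prod_const, card_univ, Fintype.card_fin]
  refine h2.trans ?_
  have h3 : (1 / 128 + 1 + ((n : ℝ) - 1) * w) ^ n ≤ 2 ^ ((n : ℝ) / 64) := by
    have hb : 1 / 128 + 1 + ((n : ℝ) - 1) * w ≤ 2 ^ ((1 : ℝ) / 64) := by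
      have h4 := hn₀ n hn1
      have h5 : (1 / 128 + 1 + 1 / 1000 : ℝ) ≤ 2 ^ ((1 : ℝ) / 64) := by
        have h6 : (1 / 128 + 1 + 1 / 1000 : ℝ) ^ (64 : ℕ) ≤ 2 := by norm_num
        have h7 : ((2 : ℝ) ^ ((1 : ℝ) / 64)) ^ (64 : ℕ) = 2 := by
          rw [← Real.rpow_natCast, ← Real.rpow_mul (by norm_num)]
          norm_num
        rw [← h7] at h6
        exact le_of_pow_le_pow_left₀ (by norm_num) (Real.rpow_nonneg (by norm_num) _) h6
      linarith
    have hb0 : 0 ≤ 1 / 128 + 1 + ((n : ℝ) - 1) * w := by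
      have : (1 : ℝ) ≤ n := by
        have : 1 ≤ n := by omega
        exact_mod_cast this
      have := mul_nonneg (sub_nonneg.2 this) hw0.le
      linarith
    refine (pow_le_pow_left₀ hb0 hb n).trans (le_of_eq ?_)
    rw [← Real.rpow_natCast, ← Real.rpow_mul (by norm_num)]
    congr 1
    ring
  have h4 : (128 : ℝ) ^ (n / 100) ≤ 2 ^ ((7 / 100 : ℝ) * n) := by
    have e : (128 : ℝ) ^ (n / 100) = 2 ^ ((7 : ℝ) * ((n / 100 : ℕ) : ℝ)) := by
      rw [Real.rpow_mul (by norm_num), Real.rpow_natCast]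
      norm_num
    rw [e]
    refine Real.rpow_le_rpow_of_exponent_le (by norm_num) ?_
    have : 100 * ((n / 100 : ℕ) : ℝ) ≤ n := by exact_mod_cast hK
    linarith
  calc (L n : ℝ) * 2 ^ (-((15 / 100 : ℝ) * n)) * (128 ^ (n / 100) * (1 / 128 + 1 + ((n : ℝ) - 1) * w) ^ n)
      ≤ L n * 2 ^ (-((15 / 100 : ℝ) * n)) * (2 ^ ((7 / 100 : ℝ) * n) * 2 ^ ((n : ℝ) / 64)) := by
        refine mul_le_mul_of_nonneg_left ?_ (mul_nonneg hL (Real.rpow_nonneg (by norm_num) _))
        refine mul_le_mul h4 h3 ?_ (Real.rpow_nonneg (by norm_num) _)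
        have : (1 : ℝ) ≤ n := by
          have : 1 ≤ n := by omega
          exact_mod_cast this
        have := mul_nonneg (sub_nonneg.2 this) hw0.le
        exact pow_nonneg (by linarith) _
    _ = 2 ^ (-((15 / 100 : ℝ) * n) + ((7 / 100 : ℝ) * n + (n : ℝ) / 64)) * L n := by
        rw [← Real.rpow_add (by norm_num), mul_assoc, ← Real.rpow_add (by norm_num), mul_comm]
    _ ≤ 2 ^ (-((6 / 100 : ℝ) * n)) * L n := by
        refine mul_le_mul_of_nonneg_right ?_ hL
        refine Real.rpow_le_rpow_of_exponent_le (by norm_num) ?_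
        have : (0 : ℝ) ≤ n := Nat.cast_nonneg _
        linarith

end Pool.Agent.Lib.MP_1ad8b2_co.H59
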